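import Pool.Agent.AG.Blades
import Pool.Agent.AG.Fan
import Pool.Agent.AG.GeoFlip
import Pool.Agent.AG.GeoLin

/-!
# Project AG, section 8: blades which do not touch the flipped triangles persist   (helper86)

`a` is the flipped side, `b = S.g a`.
-/

set_option linter.unusedSectionVars false

namespace AG

open Finset

variable {I : Type} [DecidableEq I]

theorem sigF_of_fst {a b c : Sd I} (h1 : c.1 ≠ a.1) (h2 : c.1 ≠ b.1) : sigF a b c = c :=
  sigF_other (ne_of_fst h1) (ne_of_fst (d := rot a) h1) (ne_of_fst h2) (ne_of_fst (d := rot b) h2)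

theorem sigB_of_fst {a b c : Sd I} (h1 : c.1 ≠ a.1) (h2 : c.1 ≠ b.1) : sigB a b c = c :=
  sigB_other (ne_of_fst h1) (ne_of_fst (d := rot a) h1) (ne_of_fst h2) (ne_of_fst (d := rot b) h2)

/-- the flipped triangles are permuted among themselves -/
theorem sigF_fst_mem {a b c : Sd I} (h : c.1 = a.1 ∨ c.1 = b.1) :
    (sigF a b c).1 = a.1 ∨ (sigF a b c).1 = b.1 := by
  unfold sigF
  split_ifs <;> simp_all

namespace Obj

section
variable {S : Obj I} {a : Sd I} (h : S.Flippable a)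

theorem flip_g_of_fst {c : Sd I} (h1 : c.1 ≠ a.1) (h2 : c.1 ≠ (S.g a).1) :
    (S.flip a h).g c = sigF a (S.g a) (S.g c) := by
  rw [flip_g, sigB_of_fst h1 h2]

theorem flip_g_eq {c : Sd I} (h1 : c.1 ≠ a.1) (h2 : c.1 ≠ (S.g a).1) (h3 : (S.g c).1 ≠ a.1)
    (h4 : (S.g c).1 ≠ (S.g a).1) : (S.flip a h).g c = S.g c := by
  rw [flip_g_of_fst h h1 h2, sigF_of_fst h3 h4]

theorem flip_glued_iff {c : Sd I} (h1 : c.1 ≠ a.1) (h2 : c.1 ≠ (S.g a).1) :
    (S.flip a h).g c = c ↔ S.g c = c := by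
  rw [flip_g_of_fst h h1 h2]
  constructor
  · intro e
    by_cases h3 : (S.g c).1 = a.1 ∨ (S.g c).1 = (S.g a).1
    · rcases sigF_fst_mem h3 with h4 | h4
      · rw [e] at h4; exact absurd h4 h1
      · rw [e] at h4; exact absurd h4 h2
    · rw [not_or] at h3
      rwa [sigF_of_fst h3.1 h3.2] at e
  · intro e
    rw [e, sigF_of_fst h1 h2]

theorem flip_E_of_fst {c : Sd I} (h1 : c.1 ≠ a.1) (h2 : c.1 ≠ (S.g a).1) :
    c ∈ (S.flip a h).E ↔ c ∈ S.E := by
  have := flip_E h c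
  rwa [sigF_of_fst h1 h2] at this

theorem flip_face {t : I} (h1 : t ≠ a.1) (h2 : t ≠ (S.g a).1) :
    (S.flip a h).Face t ↔ S.Face t := by
  unfold Face
  rw [flip_F]
  refine and_congr Iff.rfl (forall_congr' fun i => ?_)
  exact not_congr (flip_glued_iff h (c := (t, i)) h1 h2)

theorem flip_glued_sig {d : Sd I} :
    (S.flip a h).g (sigF a (S.g a) d) = sigF a (S.g a) d ↔ S.g d = d := by
  rw [flip_g_sig]
  constructor
  · intro e
    exact (sig a (S.g a) h.ne).injective e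
  · intro e; rw [e]

/-- if both triangles are faces, they are faces after the flip -/
theorem flip_face_self (ha : S.Face a.1) (hb : S.Face (S.g a).1) :
    (S.flip a h).Face a.1 ∧ (S.flip a h).Face (S.g a).1 := by
  have hne := h.ne
  have key : ∀ c : Sd I, c.1 = a.1 ∨ c.1 = (S.g a).1 → (S.flip a h).g c ≠ c := by
    intro c hc
    obtain ⟨d, rfl⟩ : ∃ d, sigF a (S.g a) d = c := ⟨sigB a (S.g a) c, sigF_sigB hne c⟩
    intro e
    rw [flip_glued_sig] at e
    by_cases h3 : d.1 = a.1 ∨ d.1 = (S.g a).1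
    · rcases h3 with h3 | h3
      · exact ha.2 d.2 (by rw [← h3]; exact e)
      · exact hb.2 d.2 (by rw [← h3]; exact e)
    · rw [not_or] at h3
      rw [sigF_of_fst h3.1 h3.2] at hc
      rcases hc with hc | hc
      · exact h3.1 hc
      · exact h3.2 hc
  exact ⟨⟨ha.1, fun i => key (a.1, i) (Or.inl rfl)⟩, ⟨hb.1, fun i => key ((S.g a).1, i) (Or.inr rfl)⟩⟩

theorem flip_blade {c : Sd I} (h1 : c.1 ≠ a.1) (h2 : c.1 ≠ (S.g a).1) :
    (S.flip a h).Blade c ↔ S.Blade c := by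
  unfold Blade
  rw [ne_eq, ne_eq, flip_glued_iff h h1 h2, flip_glued_iff h (c := unrot c) h1 h2,
    flip_glued_iff h (c := rot c) h1 h2, flip_E_of_fst h (c := rot c) h1 h2]

/-- `c` is a corner of a triangle which is not flipped -/
def Off (S : Obj I) (a c : Sd I) : Prop := c.1 ≠ a.1 ∧ c.1 ≠ (S.g a).1

theorem Off.of_fst {S : Obj I} {a c d : Sd I} (h : S.Off a c) (hd : d.1 = c.1) : S.Off a d :=
  ⟨by rw [hd]; exact h.1, by rw [hd]; exact h.2⟩

theorem Off.rot {S : Obj I} {a c : Sd I} (h : S.Off a c) : S.Off a (rot c) := h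
theorem Off.unrot {S : Obj I} {a c : Sd I} (h : S.Off a c) : S.Off a (unrot c) := h

theorem off_flip_g {c : Sd I} (hc : S.Off a c) (hg : S.Off a (S.g c)) :
    (S.flip a h).g c = S.g c := flip_g_eq h hc.1 hc.2 hg.1 hg.2

theorem flip_active {c : Sd I} (hc : S.Off a c) (hg : S.Off a (S.g c)) :
    (S.flip a h).Active c ↔ S.Active c := by
  unfold Active
  rw [off_flip_g h hc hg, flip_face h hg.1 hg.2]

variable (pt : Sd I → Pt)

theorem flip_cang {c : Sd I} (hc : S.Off a c) : cang (flipPt pt a (S.g a)) c = cang pt c :=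
  Geo.cang_flip_other hc.1 hc.2

theorem flip_blk {c : Sd I} (hc : S.Off a c) (hg : S.Off a (S.g c)) :
    (S.flip a h).Blk (flipPt pt a (S.g a)) c ↔ S.Blk pt c := by
  unfold Obj.Blk AG.Blk
  rw [off_flip_g h hc hg, flip_cang pt hc, flip_cang pt hg.rot]

theorem flip_isU {c : Sd I} (hc : S.Off a c) (hg : S.Off a (S.g c)) :
    (S.flip a h).IsU (flipPt pt a (S.g a)) c ↔ S.IsU pt c := by
  unfold Obj.IsU
  have e := off_flip_g h hc hg
  constructor
  · rintro ⟨h1, h2, h3⟩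
    rw [e] at h1 h2 h3
    rw [flip_cang pt hc, flip_cang pt hg.rot] at h2
    rw [flip_cang pt hg, flip_cang pt hc.rot] at h3
    exact ⟨h1, h2, h3⟩
  · rintro ⟨h1, h2, h3⟩
    refine ⟨by rw [e]; exact h1, ?_, ?_⟩
    · rw [e, flip_cang pt hc, flip_cang pt hg.rot]; exact h2
    · rw [e, flip_cang pt hg, flip_cang pt hc.rot]; exact h3

theorem flip_pairAt {c : Sd I} (hc : S.Off a c) (hg : S.Off a (S.g c))
    (hg' : S.Off a (S.g (unrot c))) :
    (S.flip a h).PairAt (flipPt pt a (S.g a)) c ↔ S.PairAt pt c := by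
  have e := off_flip_g h hc.unrot hg'
  have k1 := flip_blk h pt hc hg
  have k2 := flip_blk h pt (c := S.g (unrot c)) hg' (by rw [S.invol]; exact hc.unrot)
  unfold Obj.Blk at k1 k2
  constructor
  · rintro ⟨h1, h2⟩
    rw [e] at h2
    exact ⟨k1.1 h1, k2.1 h2⟩
  · rintro ⟨h1, h2⟩
    exact ⟨k1.2 h1, by rw [e]; exact k2.2 h2⟩

theorem flip_candA {c : Sd I} (hc : S.Off a c) (hg : S.Off a (S.g c))
    (hg' : S.Off a (S.g (unrot c))) :
    (S.flip a h).CandA (flipPt pt a (S.g a)) c ↔ S.CandA pt c := by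
  unfold CandA
  rw [flip_blade h hc.1 hc.2, flip_active h hc hg, flip_isU h pt hc hg, flip_pairAt h pt hc hg hg',
    flip_active h hc.unrot hg']

theorem flip_candB {c : Sd I} (hc : S.Off a c) (hg : S.Off a (S.g c))
    (hg' : S.Off a (S.g (rot c))) :
    (S.flip a h).CandB (flipPt pt a (S.g a)) c ↔ S.CandB pt c := by
  unfold CandB
  rw [flip_blade h hc.rot.1 hc.rot.2, flip_active h hc hg, flip_isU h pt hc hg,
    flip_pairAt h pt (c := AG.rot c) hc.rot hg' (by rw [unrot_rot]; exact hg),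
    flip_active h hc.rot hg']

theorem flip_virtA {u : Sd I} (hu : S.Off a u) (hg : S.Off a (S.g (rot u)))
    (hg' : S.Off a (S.g (unrot (S.g (rot u))))) :
    (S.flip a h).VirtA (flipPt pt a (S.g a)) u ↔ S.VirtA pt u := by
  unfold VirtA
  rw [off_flip_g h hu.rot hg]
  exact flip_candA h pt hg (by rw [S.invol]; exact hu.rot) hg'

theorem flip_virtB {u : Sd I} (hu : S.Off a u) (hg : S.Off a (S.g (rot u)))
    (hg' : S.Off a (S.g (rot (S.g (rot u))))) :
    (S.flip a h).VirtB (flipPt pt a (S.g a)) u ↔ S.VirtB pt u := by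
  unfold VirtB
  rw [off_flip_g h hu.rot hg]
  exact flip_candB h pt hg (by rw [S.invol]; exact hu.rot) hg'

end

end Obj

end AG
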