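import Pool.Agent.AG.S8.FlipBl
import Pool.Agent.AG.Reg.Blade
import Pool.Agent.AG.GeoMore

/-!
# Project AG, section 8: the fan of `w` and the flip   (helper86)

`a` is the flipped side (a `U` diagonal), `b = S.g a`, `W = unrot b` is the corner of the triangle
`b.1` opposite to the flipped side.  In `S` the fan of `w` is `..., κ, W, cw W, ...`, in the flipped
object it is `..., κ, rot a, W, cw W, ...`.
-/

set_option linter.unusedSectionVars false

namespace AG

open Finset

variable {I : Type} [DecidableEq I]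

namespace Obj

/-- the situation of section 8 without regions -/
structure C8 (S : Obj I) (pt : Sd I → Pt) (a : Sd I) : Prop where
  geo : S.Geo pt
  u : S.IsU pt a
  base : S.Base pt
  fa : S.Face a.1
  fb : S.Face (S.g a).1

namespace C8

variable {S : Obj I} {pt : Sd I → Pt} {a : Sd I} (C : S.C8 pt a)
include C

theorem ne : (S.g a).1 ≠ a.1 := S.ne a C.u.glued

theorem off_of_eqv {c : Sd I} (h : S.Eqv (unrot (S.g a)) c) (hne : c ≠ unrot (S.g a)) :
    S.Off a c := by
  refine ⟨fun e => ?_, fun e => ?_⟩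
  · exact C.geo.third_not_corner C.u.glued e (C.geo.pt_eqv h).symm
  · exact hne (C.base.tri c (unrot (S.g a)) (by rw [e]; exact g_memF C.u.glued) (by rw [e]; rfl)
      h.symm)

theorem gW : S.g (unrot (S.g a)) ≠ unrot (S.g a) := Face.g (c := unrot (S.g a)) C.fb

theorem off_gW : S.Off a (S.g (unrot (S.g a))) := by
  refine ⟨?_, ?_⟩
  · have := C.geo.sh (a := unrot (S.g a)) (b := S.g a) rfl (unrot_ne _) C.gW
      (g_ne_iff.2 C.u.glued)
    rwa [S.invol] at this
  · exact S.ne _ C.gW

/-- `κ = g (rot b)` -/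
theorem off_k : S.Off a (S.g (rot (S.g a))) := by
  have hg : S.g (rot (S.g a)) ≠ rot (S.g a) := Face.g (c := rot (S.g a)) C.fb
  refine ⟨?_, ?_⟩
  · have := C.geo.sh (a := rot (S.g a)) (b := S.g a) rfl (rot_ne _) hg
      (g_ne_iff.2 C.u.glued)
    rwa [S.invol] at this
  · exact S.ne _ hg

/-- `τ = g (rot a)` -/
theorem off_t : S.Off a (S.g (rot a)) := by
  have hg : S.g (rot a) ≠ rot a := Face.g (c := rot a) C.fa
  refine ⟨S.ne _ hg, ?_⟩
  exact C.geo.sh (a := rot a) (b := a) rfl (rot_ne _) hg C.u.glued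

/-- `g (unrot a)` -/
theorem off_y : S.Off a (S.g (unrot a)) := by
  have hg : S.g (unrot a) ≠ unrot a := Face.g (c := unrot a) C.fa
  refine ⟨S.ne _ hg, ?_⟩
  exact C.geo.sh (a := unrot a) (b := a) rfl (unrot_ne _) hg C.u.glued

variable (h : S.Flippable a)

theorem flip_W : (S.flip a h).g (unrot (S.g a)) = S.g (unrot (S.g a)) := by
  have k : sigB a (S.g a) (unrot (S.g a)) = unrot (S.g a) :=
    sigB_other (ne_of_fst C.ne) (ne_of_fst C.ne) (unrot_ne _) (unrot_ne_rot _)
  rw [flip_g, k]
  exact sigF_of_fst C.off_gW.1 C.off_gW.2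

theorem flip_k : (S.flip a h).g (S.g (rot (S.g a))) = a := by
  rw [flip_g_of_fst h C.off_k.1 C.off_k.2, S.invol, sigF_rb C.ne]

theorem flip_a : (S.flip a h).g a = S.g (rot (S.g a)) := by
  rw [flip_g, sigB_a]
  exact sigF_of_fst C.off_k.1 C.off_k.2

theorem flip_t : (S.flip a h).g (S.g (rot a)) = S.g a := by
  rw [flip_g_of_fst h C.off_t.1 C.off_t.2, S.invol, sigF_ra]

theorem flip_b : (S.flip a h).g (S.g a) = S.g (rot a) := by
  rw [flip_g, sigB_b C.ne]
  exact sigF_of_fst C.off_t.1 C.off_t.2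

theorem flip_y : (S.flip a h).g (unrot a) = S.g (unrot a) := by
  have k : sigB a (S.g a) (unrot a) = unrot a :=
    sigB_other (unrot_ne _) (unrot_ne_rot _) (ne_of_fst C.ne.symm) (ne_of_fst C.ne.symm)
  rw [flip_g, k]
  exact sigF_of_fst C.off_y.1 C.off_y.2

/-- positions below `W` are unchanged -/
theorem ps_le (hl' : (S.flip a h).Linear) {u : Sd I} (he : S.Eqv (unrot (S.g a)) u)
    (hp : S.ps u ≤ S.ps (unrot (S.g a))) :
    (S.flip a h).Eqv (unrot (S.g a)) u ∧ (S.flip a h).ps u = S.ps u := by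
  have hl := C.base.lin
  -- first the statement for chains which start at `u` and go down
  have key : ∀ n : ℕ, ∀ u : Sd I, S.Eqv (unrot (S.g a)) u → S.ps u = n →
      n ≤ S.ps (unrot (S.g a)) → (S.flip a h).ps u = n ∧
        (S.flip a h).cw^[n] u = S.cw^[n] u := by
    intro n
    induction n with
    | zero =>
      intro u hu h0 _
      have hg : S.g u = u := (ps_eq_zero_iff hl).1 h0
      have hne : u ≠ unrot (S.g a) := fun e => C.gW (by rw [← e]; exact hg)
      have ho := C.off_of_eqv hu hne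
      exact ⟨ps_of_unglued ((flip_glued_iff h ho.1 ho.2).2 hg), rfl⟩
    | succ n ih =>
      intro u hu h0 hle
      have hg : S.g u ≠ u := (ps_pos_iff hl).1 (by omega)
      have h1 := ps_of_glued hl hg
      have hcw : S.Eqv (unrot (S.g a)) (S.cw u) := hu.trans (S.cw_eqv u)
      have hcne : S.cw u ≠ unrot (S.g a) := by
        intro e
        rw [e] at h1
        omega
      have hco := C.off_of_eqv hcw hcne
      have hgo : S.Off a (S.g u) := hco.of_fst (cw_fst hg).symm
      have hg' : (S.flip a h).g u = S.g u := by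
        by_cases e : u = unrot (S.g a)
        · rw [e]; exact C.flip_W h
        · exact off_flip_g h (C.off_of_eqv hu e) hgo
      have hg2 : (S.flip a h).g u ≠ u := by rw [hg']; exact hg
      have hcw' : (S.flip a h).cw u = S.cw u := by
        rw [cw_of_glued hg2, cw_of_glued hg, hg']
      obtain ⟨i1, i2⟩ := ih (S.cw u) hcw (by omega) (by omega)
      refine ⟨?_, ?_⟩
      · rw [ps_of_glued hl' hg2, hcw', i1]
      · rw [Function.iterate_succ_apply, Function.iterate_succ_apply, hcw', i2]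
  obtain ⟨h1, h2⟩ := key _ u he rfl hp
  obtain ⟨h3, h4⟩ := key _ (unrot (S.g a)) (Eqv.refl _ _) rfl le_rfl
  refine ⟨?_, h1⟩
  have e1 : S.cw^[S.ps u] u = S.cw^[S.ps (unrot (S.g a))] (unrot (S.g a)) := by
    have k : ∀ v : Sd I, S.g (S.cw^[S.ps v] v) = S.cw^[S.ps v] v := by
      intro v
      classical
      have h0 : ∃ n, S.g (S.cw^[n] v) = S.cw^[n] v := hl v
      rw [ps, dif_pos h0]
      exact Nat.find_spec h0
    have k1 := last_eq_of (k u)
    have k2 := last_eq_of (k (unrot (S.g a)))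
    rw [← k1, ← k2]
    exact (eqv_iff hl).1 he.symm
  have e2 := (S.flip a h).cw_iter_eqv (S.ps u) u
  have e3 := (S.flip a h).cw_iter_eqv (S.ps (unrot (S.g a))) (unrot (S.g a))
  rw [h2, e1] at e2
  rw [h4] at e3
  exact e3.trans e2.symm

theorem ps_W (hl' : (S.flip a h).Linear) :
    (S.flip a h).ps (unrot (S.g a)) = S.ps (unrot (S.g a)) :=
  (C.ps_le h hl' (Eqv.refl _ _) le_rfl).2

/-- the new corner at `w` -/
theorem ps_new (hl' : (S.flip a h).Linear) :
    (S.flip a h).Eqv (unrot (S.g a)) (rot a) ∧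
      (S.flip a h).ps (rot a) = S.ps (unrot (S.g a)) + 1 := by
  have h1 : (S.flip a h).g (rot a) ≠ rot a := by
    rw [flip_g_rot]; exact ne_of_fst C.ne
  have h2 : (S.flip a h).cw (rot a) = unrot (S.g a) := by
    rw [cw_of_glued h1, flip_g_rot, rot_rot]
  refine ⟨?_, ?_⟩
  · have := (S.flip a h).cw_eqv (rot a)
    rw [h2] at this
    exact this.symm
  · rw [ps_of_glued hl' h1, h2, C.ps_W h hl']

/-- positions above `W` are shifted by one -/
theorem ps_gt (hl' : (S.flip a h).Linear) {u : Sd I} (he : S.Eqv (unrot (S.g a)) u)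
    (hp : S.ps (unrot (S.g a)) < S.ps u) :
    (S.flip a h).Eqv (unrot (S.g a)) u ∧ (S.flip a h).ps u = S.ps u + 1 := by
  have hl := C.base.lin
  have key : ∀ n : ℕ, ∀ u : Sd I, S.Eqv (unrot (S.g a)) u →
      S.ps u = S.ps (unrot (S.g a)) + 1 + n →
      (S.flip a h).Eqv (unrot (S.g a)) u ∧ (S.flip a h).ps u = S.ps u + 1 := by
    intro n
    induction n with
    | zero =>
      intro u hu h0
      have hne : u ≠ unrot (S.g a) := by intro e; rw [e] at h0; omega
      obtain ⟨h1, h2, h3, h4⟩ := ccw_of_ps hl hu h0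
      have h5 : u = S.g (rot (S.g a)) := by
        rw [← h4, ccw_of_glued h3, unrot_unrot]
      have h6 : (S.flip a h).g u = a := by rw [h5]; exact C.flip_k h
      have h7 : (S.flip a h).g u ≠ u := by
        rw [h6]; intro e
        exact (C.off_of_eqv hu hne).1 (by rw [← e])
      have h8 : (S.flip a h).cw u = rot a := by rw [cw_of_glued h7, h6]
      obtain ⟨k1, k2⟩ := C.ps_new h hl'
      have h9 := (S.flip a h).cw_eqv u
      rw [h8] at h9
      refine ⟨k1.trans h9.symm, ?_⟩
      rw [ps_of_glued hl' h7, h8, k2]; omega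
    | succ n ih =>
      intro u hu h0
      have hg : S.g u ≠ u := (ps_pos_iff hl).1 (by omega)
      have h1 := ps_of_glued hl hg
      have hcw : S.Eqv (unrot (S.g a)) (S.cw u) := hu.trans (S.cw_eqv u)
      have hne : u ≠ unrot (S.g a) := by intro e; rw [e] at h0; omega
      have hcne : S.cw u ≠ unrot (S.g a) := by
        intro e
        rw [e] at h1
        omega
      have hco := C.off_of_eqv hcw hcne
      have hgo : S.Off a (S.g u) := hco.of_fst (cw_fst hg).symm
      have hg' : (S.flip a h).g u = S.g u := off_flip_g h (C.off_of_eqv hu hne) hgo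
      have hg2 : (S.flip a h).g u ≠ u := by rw [hg']; exact hg
      have hcw' : (S.flip a h).cw u = S.cw u := by
        rw [cw_of_glued hg2, cw_of_glued hg, hg']
      obtain ⟨i1, i2⟩ := ih (S.cw u) hcw (by omega)
      have h9 := (S.flip a h).cw_eqv u
      rw [hcw'] at h9
      refine ⟨i1.trans h9.symm, ?_⟩
      rw [ps_of_glued hl' hg2, hcw', i2]; omega
  exact key (S.ps u - (S.ps (unrot (S.g a)) + 1)) u he (by omega)

/-- all corners at `w` are equivalent in the flip -/
theorem eqv_flip (hl' : (S.flip a h).Linear) {u : Sd I} (he : S.Eqv (unrot (S.g a)) u) :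
    (S.flip a h).Eqv (unrot (S.g a)) u := by
  rcases Nat.lt_or_ge (S.ps (unrot (S.g a))) (S.ps u) with h1 | h1
  · exact (C.ps_gt h hl' he h1).1
  · exact (C.ps_le h hl' he h1).1

/-- ear ends at `w` -/
theorem earEnd_flip (hl' : (S.flip a h).Linear) (he : S.EarEnd (unrot (S.g a))) :
    (S.flip a h).EarEnd (unrot (S.g a)) := by
  obtain ⟨e, he, h1⟩ := he
  have hg := S.earFree e he
  have ho : S.Off a e := by
    refine ⟨fun e1 => ?_, fun e1 => ?_⟩
    · exact (Face.g (c := e) (by rw [e1]; exact C.fa)) hg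
    · exact (Face.g (c := e) (by rw [e1]; exact C.fb)) hg
  refine ⟨e, (flip_E_of_fst h ho.1 ho.2).2 he, ?_⟩
  rcases h1 with h1 | h1
  · exact Or.inl (C.eqv_flip h hl' h1.symm).symm
  · exact Or.inr (C.eqv_flip h hl' h1.symm).symm

end C8

/-- (Q) the boundary of a set which avoids the two flipped triangles is unchanged -/
theorem flip_bd {S : Obj I} {a : Sd I} (h : S.Flippable a) {Z : Finset I} (h1 : a.1 ∉ Z)
    (h2 : (S.g a).1 ∉ Z) : (S.flip a h).bd Z = S.bd Z := by
  ext e
  rw [mem_bd, mem_bd]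
  by_cases he : e.1 ∈ Z
  · have ho1 : e.1 ≠ a.1 := fun e1 => h1 (by rw [← e1]; exact he)
    have ho2 : e.1 ≠ (S.g a).1 := fun e1 => h2 (by rw [← e1]; exact he)
    have k : ((S.flip a h).g e).1 ∈ Z ↔ (S.g e).1 ∈ Z := by
      rw [flip_g_of_fst h ho1 ho2]
      by_cases h3 : (S.g e).1 = a.1 ∨ (S.g e).1 = (S.g a).1
      · constructor
        · intro h4
          rcases sigF_fst_mem h3 with h5 | h5
          · rw [h5] at h4; exact absurd h4 h1
          · rw [h5] at h4; exact absurd h4 h2
        · intro h4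
          rcases h3 with h5 | h5
          · rw [h5] at h4; exact absurd h4 h1
          · rw [h5] at h4; exact absurd h4 h2
      · rw [not_or] at h3
        rw [sigF_of_fst h3.1 h3.2]
    rw [k, ne_eq, flip_glued_iff h ho1 ho2]
  · simp [he]

end Obj

end AG
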