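import Pool.Agent.AG.S8.FlipFan

/-!
# Project AG, section 8: 8.1 the virtual blade at `w` in the flip, 8.3 persistence   (helper86)
-/

set_option linter.unusedSectionVars false

namespace AG

open Finset

variable {I : Type} [DecidableEq I]

namespace Obj

/-- two sides of a face are not the two edges of a cut (all directions) -/
theorem Bridgeless.face_cut' {S : Obj I} (hb : S.Bridgeless) {X : Finset I} (hX : X ⊆ S.F)
    {c d e f : Sd I} (hf : S.Face c.1) (hcd : d.1 = c.1) (hne : c ≠ d) (he : e = c ∨ e = S.g c)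
    (hf' : f = d ∨ f = S.g d) (hbd : S.bd X = {e, f}) : False := by
  have m1 : e ∈ S.bd X := by rw [hbd]; simp
  have m2 : f ∈ S.bd X := by rw [hbd]; simp
  rw [mem_bd] at m1 m2
  rcases he with rfl | rfl <;> rcases hf' with rfl | rfl
  · exact (hb.face_cut hX hf hcd hne).1 hbd
  · rw [S.invol] at m2
    exact m2.2.2 (by rw [hcd]; exact m1.2.1)
  · rw [S.invol] at m1
    exact m1.2.2 (by rw [← hcd]; exact m2.2.1)
  · exact (hb.face_cut hX hf hcd hne).2 hbd

namespace C8

variable {S : Obj I} {pt : Sd I → Pt} {a : Sd I} (C : S.C8 pt a)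
include C

theorem off_of_not_face {c : Sd I} (hn : ¬ S.Face c.1) : S.Off a c :=
  ⟨fun e => hn (by rw [e]; exact C.fa), fun e => hn (by rw [e]; exact C.fb)⟩

variable (h : S.Flippable a)

/-- 8.1 -/
theorem virtA_flip (hv : S.VirtA pt a)
    (hy : cang pt (rot (S.g (rot a))) + cang pt (rot a) + cang pt (S.g a) < Real.pi) :
    (S.flip a h).VirtA (flipPt pt a (S.g a)) (unrot (S.g a)) := by
  obtain ⟨hb, ha, hr⟩ := hv
  have hg' : (S.flip a h).Geo (flipPt pt a (S.g a)) := AG.Geo.geo_flip C.geo C.u h
  have e1 : (S.flip a h).g (rot (unrot (S.g a))) = S.g (rot a) := by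
    rw [rot_unrot]; exact C.flip_b h
  have e2 : (S.flip a h).g (S.g (rot a)) = S.g a := C.flip_t h
  have off := C.off_t
  have gl : (S.flip a h).g (S.g (rot a)) ≠ S.g (rot a) := by
    rw [e2]; exact fun e => off.2 (by rw [← e])
  unfold VirtA
  rw [e1]
  refine ⟨(flip_blade h off.1 off.2).2 hb, ⟨gl, ?_⟩, ?_⟩
  · rw [e2]; exact (flip_face_self h C.fa C.fb).2
  · rcases AG.Geo.isU_or_blk (pt := flipPt pt a (S.g a)) gl with h1 | h1 | h1
    · exact Or.inl h1
    · right
      have h2 := h1.2
      rw [e2, flip_cang pt off] at h2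
      have h3 := AG.Geo.cang_flip_w1 C.geo C.u
      have h4 : 0 < cang (flipPt pt a (S.g a)) (unrot a) :=
        AG.Geo.cang_pos hg' (C.fa.1 : (unrot a).1 ∈ S.F)
      have hB : S.Blk pt (S.g (rot a)) := by
        refine ⟨?_, ?_⟩
        · rw [S.invol]; exact ((Face.g (c := rot a) C.fa)).symm
        · rw [S.invol, rot_rot]; linarith
      rcases hr with hr | ⟨hr1, hr2⟩
      · exact absurd hB hr.not_blk
      · have gu : S.g (unrot (S.g (rot a))) ≠ unrot (S.g (rot a)) := hb.2.1
        have hnf : ¬ S.Face (S.g (unrot (S.g (rot a)))).1 := fun hf => hr2 ⟨gu, hf⟩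
        have off' := C.off_of_not_face hnf
        refine ⟨⟨h1, ?_⟩, ?_⟩
        · rw [off_flip_g h off.unrot off']
          exact (flip_blk h pt off' (by rw [S.invol]; exact off.unrot)).2 hr1.b2
        · exact fun h5 => hr2 ((flip_active h off.unrot off').1 h5)
    · exfalso
      rw [e2] at h1
      have h2 := h1.2
      rw [C.flip_b h, AG.Geo.cang_flip_b C.geo C.u, flip_cang pt off.rot] at h2
      linarith

theorem not_bladeAt_W : ¬ S.BladeAt pt (unrot (S.g a)) := by
  rintro (h1 | h1 | h1)
  · exact h1.not_face C.fb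
  · have h2 := h1.1
    rw [rot_unrot, S.invol] at h2
    exact h2.not_face C.fa
  · have h2 := h1.1
    rw [rot_unrot, S.invol] at h2
    exact h2.not_face C.fa

theorem ne_W {u : Sd I} (hb : S.BladeAt pt u) : u ≠ unrot (S.g a) := fun e =>
  C.not_bladeAt_W (by rw [← e]; exact hb)

/-- the other vertices of the triangle `t_u` of a virtual blade at `w` are not `w` -/
theorem no_corner {u c : Sd I} (he : S.Eqv (unrot (S.g a)) u) (gu : S.g (rot u) ≠ rot u)
    (hc : c.1 = (S.g (rot u)).1) : pt c ≠ pt (unrot (S.g a)) := by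
  intro e
  have h1 : S.g (S.g (rot u)) ≠ S.g (rot u) := g_ne_iff.2 gu
  apply C.geo.third_not_corner h1 hc
  rw [S.invol, unrot_rot, e]
  exact C.geo.pt_eqv he

/-- a side of `t_u` is not glued to a side of the second triangle which contains `w` -/
theorem off_b {u d : Sd I} (he : S.Eqv (unrot (S.g a)) u) (gu : S.g (rot u) ≠ rot u)
    (hd : d.1 = (S.g (rot u)).1) (gd : S.g d ≠ d) (hf : ¬ S.Face d.1) :
    (S.g d).1 ≠ (S.g a).1 := by
  intro e
  rcases eq_of_fst_eq e with e1 | e1 | e1
  · have : d = a := S.g_injective e1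
    exact hf (by rw [this]; exact C.fa)
  · -- the side `v w` of the second triangle
    apply C.no_corner he gu hd
    have := C.geo.mat' gd
    rw [e1] at this
    -- pt (rot b) = pt (rot d)
    have h2 := C.geo.mat d gd
    rw [e1, rot_rot] at h2
    exact h2.symm
  · apply C.no_corner he gu (c := rot d) hd
    have := C.geo.mat' gd
    rw [e1] at this
    exact this.symm

/-- 8.3, first case -/
theorem virtA_persist {u : Sd I} (hvb : S.Blade (S.g (rot a))) (he : S.Eqv (unrot (S.g a)) u)
    (hu : S.VirtA pt u) : (S.flip a h).VirtA (flipPt pt a (S.g a)) u := by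
  have off := C.off_of_eqv he (C.ne_W (Or.inr (Or.inl hu)))
  have hB : S.Blade (S.g (rot u)) := hu.1
  have gu : S.g (rot u) ≠ rot u := by
    have := hu.2.1.1
    rw [S.invol] at this
    exact this.symm
  have hnf := hB.not_face
  have off1 := C.off_of_not_face hnf
  refine (flip_virtA h pt off off1 ⟨?_, ?_⟩).2 hu
  · intro e
    have gd : S.g (unrot (S.g (rot u))) ≠ unrot (S.g (rot u)) := hB.2.1
    rcases eq_of_fst_eq e with e1 | e1 | e1
    · have : unrot (S.g (rot u)) = S.g a := by rw [← S.invol (unrot (S.g (rot u))), e1]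
      exact off1.2 (by rw [← this]; rfl)
    · have h2 : unrot (S.g (rot u)) = S.g (rot a) := by
        rw [← S.invol (unrot (S.g (rot u))), e1]
      have h3 := hvb.unique hB (by rw [← h2]; rfl)
      rw [← h2] at h3
      exact unrot_ne _ h3
    · have h2 : unrot (S.g (rot u)) = S.g (unrot a) := by
        rw [← S.invol (unrot (S.g (rot u))), e1]
      -- two real blades at `y`
      have g1 : S.g (rot a) ≠ rot a := Face.g (c := rot a) C.fa
      have g2 : S.g (unrot a) ≠ unrot a := Face.g (c := unrot a) C.fa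
      have k1 : S.Eqv (unrot a) (S.g (rot a)) := by
        have := Eqv.of_glued' g1
        rwa [rot_rot] at this
      have k2 : S.Eqv (S.g (rot u)) (unrot a) := by
        have := Eqv.of_glued' gd
        rwa [rot_unrot, e1] at this
      have hne : S.g (rot a) ≠ S.g (rot u) := by
        intro h3
        have h4 := C.geo.sh (a := unrot a) (b := rot a) rfl (unrot_ne_rot a) g2 g1
        apply h4
        rw [← h2, h3]; rfl
      obtain ⟨_, _, X, hX, e1', e2', hd1, hd2, hbd⟩ := C.base.pr (S.g (rot a)) (S.g (rot u))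
        (S.g (rot a)) (unrot (S.g (rot u))) (Or.inl hvb) (Or.inl hB) (k1.symm.trans k2.symm) hne
        (Or.inl ⟨hvb, Or.inl rfl⟩) (Or.inl ⟨hB, Or.inr rfl⟩)
      rw [S.invol] at hd1
      rw [e1, h2] at hd2
      exact C.base.bl.face_cut' hX (c := rot a) (d := unrot a) C.fa rfl (unrot_ne_rot a).symm
        hd1.symm hd2.symm hbd
  · exact C.off_b he gu rfl hB.2.1 hnf

/-- 8.3, second case -/
theorem virtB_persist {u : Sd I} (hva : S.VirtA pt a) (he : S.Eqv (unrot (S.g a)) u)
    (hu : S.VirtB pt u) : (S.flip a h).VirtB (flipPt pt a (S.g a)) u := by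
  have off := C.off_of_eqv he (C.ne_W (Or.inr (Or.inr hu)))
  have hB : S.Blade (rot (S.g (rot u))) := hu.1
  have gu : S.g (rot u) ≠ rot u := by
    have := hu.2.1.1
    rw [S.invol] at this
    exact this.symm
  have hnf : ¬ S.Face (S.g (rot u)).1 := hB.not_face
  have off1 := C.off_of_not_face hnf
  refine (flip_virtB h pt off off1 ⟨?_, ?_⟩).2 hu
  · intro e
    have gd : S.g (rot (S.g (rot u))) ≠ rot (S.g (rot u)) := hB.1
    rcases eq_of_fst_eq e with e1 | e1 | e1
    · have : rot (S.g (rot u)) = S.g a := by rw [← S.invol (rot (S.g (rot u))), e1]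
      exact off1.2 (by rw [← this]; rfl)
    · -- `u.1` is the neighbour of `t` across the other side
      have h2 : rot (S.g (rot u)) = S.g (rot a) := by
        rw [← S.invol (rot (S.g (rot u))), e1]
      have hg' : (S.flip a h).Geo (flipPt pt a (S.g a)) := AG.Geo.geo_flip C.geo C.u h
      have g1 : S.g (rot a) ≠ rot a := Face.g (c := rot a) C.fa
      have p1 : pt (rot u) = pt (unrot a) := by
        have m1 := C.geo.mat (rot u) gu
        rw [h2] at m1
        rw [← m1]
        have m2 := C.geo.mat' g1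
        rwa [rot_rot] at m2
      have p2 : pt u = pt (unrot (S.g a)) := (C.geo.pt_eqv he).symm
      have k := AG.Geo.side_inj hg' (a := u) (b := rot a) (S.memF _ (VirtB.face hu).g) C.fa.1 ?_ ?_
      · exact off.1 (by rw [k]; rfl)
      · rw [flipPt_of_fst off.1 off.2, flipPt_ra, p2]
      · rw [flipPt_of_fst (c := rot u) off.1 off.2, rot_rot, flipPt_ua C.ne, p1]
    · -- a real blade at `v` next to `a.1`
      have h2 : rot (S.g (rot u)) = S.g (unrot a) := by
        rw [← S.invol (rot (S.g (rot u))), e1]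
      have g2 : S.g (unrot a) ≠ unrot a := Face.g (c := unrot a) C.fa
      have := (C.base.adj (rot (S.g (rot u))) a (Or.inl hB) (Or.inr (Or.inl hva))
        ⟨gd, by rw [e1, rot_unrot]⟩).1
      exact hB.not_virt (Or.inr this)
  · exact C.off_b he gu rfl hB.1 hnf

/-- 8.3: blades at `w` persist, with the same type -/
theorem bladeAt_persist {u : Sd I} (hva : S.VirtA pt a) (he : S.Eqv (unrot (S.g a)) u)
    (hu : S.BladeAt pt u) :
    (S.Blade u ∧ (S.flip a h).Blade u) ∨
      (S.VirtA pt u ∧ (S.flip a h).VirtA (flipPt pt a (S.g a)) u) ∨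
      (S.VirtB pt u ∧ (S.flip a h).VirtB (flipPt pt a (S.g a)) u) := by
  have off := C.off_of_eqv he (C.ne_W hu)
  rcases hu with hu | hu | hu
  · exact Or.inl ⟨hu, (flip_blade h off.1 off.2).2 hu⟩
  · exact Or.inr (Or.inl ⟨hu, C.virtA_persist h hva.1 he hu⟩)
  · exact Or.inr (Or.inr ⟨hu, C.virtB_persist h hva he hu⟩)

end C8

end Obj

end AG
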