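import Pool.Agent.AG.S8.S81
import Pool.Agent.AG.Reg.Extra
import Pool.Agent.AG.Reg.OfCex
import Pool.Agent.AG.Red.FlipRed

/-!
# Project AG, section 8: 8.2 the fan of `w` lies in `R`, 8.4, 8.5   (helper86)
-/

set_option linter.unusedSectionVars false

namespace AG

open Finset

variable {I : Type} [DecidableEq I]

namespace Obj

/-- crossing, without order -/
theorem exists_cross_bd {S : Obj I} (hl : S.Linear) {a b : Sd I} (h : S.Eqv a b)
    {X : Finset I} (hX : ¬ (a.1 ∈ X ↔ b.1 ∈ X)) :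
    ∃ c, S.Eqv a c ∧ S.g c ≠ c ∧ (c ∈ S.bd X ∨ S.g c ∈ S.bd X) := by
  rcases Nat.le_total (S.ps a) (S.ps b) with h1 | h1
  · obtain ⟨c, h2, h3, _, _, h4, _⟩ := exists_cross hl h h1 hX
    exact ⟨c, h2, h3, mem_bd_or h3 h4⟩
  · obtain ⟨c, h2, h3, _, _, h4, _⟩ := exists_cross hl h.symm h1 (fun h5 => hX h5.symm)
    exact ⟨c, h.trans h2, h3, mem_bd_or h3 h4⟩

/-- the situation of section 8 (case (Ub), left stub, angle sum smaller than `π`) -/
structure U8 (S : Obj I) (pt : Sd I → Pt) (R : Set Pt) (a w' : Sd I) : Prop where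
  om : S.OpenMin pt R a w'
  vA : S.VirtA pt a
  u : S.IsU pt a
  fb : S.Face (S.g a).1
  y : cang pt (rot (S.g (rot a))) + cang pt (rot a) + cang pt (S.g a) < Real.pi
  env : Env S pt (S.pB pt a w') (S.Eqv a)
  vr : ∀ u, S.BladeAt pt u → S.Eqv a u → u.1 ∉ S.pB pt a w'

namespace U8

variable {S : Obj I} {pt : Sd I → Pt} {R : Set Pt} {a w' : Sd I} (U : S.U8 pt R a w')
include U

theorem base : Base S pt := U.om.cex.base

theorem c8 : S.C8 pt a := ⟨U.om.cex.geo, U.u, U.base, U.vA.face, U.fb⟩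

theorem flippable : S.Flippable a := AG.Geo.flippable U.om.cex.geo U.u.glued

theorem iO : S.IsIn a (S.hi pt w') (S.pO pt a w') := by
  have := U.base.isIn_pO U.om.pr
  rwa [lo_of_not_B U.vA.not_B] at this

theorem bd_pB : S.bd (S.pB pt a w') = {S.g a, S.hi pt w'} := by
  unfold pB
  rw [bd_sdiff, inter_eq_right.2 U.iO.sub, U.iO.bd, image_insert, image_singleton, S.invol]

theorem mem_pB {t : I} : t ∈ S.pB pt a w' ↔ t ∈ S.F ∧ t ∉ S.pO pt a w' := by
  unfold pB; rw [mem_sdiff]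

theorem b_mem : (S.g a).1 ∈ S.pB pt a w' := (mem_bd.1 (by rw [U.bd_pB]; simp :
  S.g a ∈ S.bd (S.pB pt a w'))).2.1

theorem a_not_mem : a.1 ∉ S.pB pt a w' := by
  have := (mem_bd.1 (by rw [U.bd_pB]; simp : S.g a ∈ S.bd (S.pB pt a w'))).2.2
  rwa [S.invol] at this

theorem a_mem_pO : a.1 ∈ S.pO pt a w' := (mem_bd.1 U.iO.mem_left).2.1

/-- corners of one triangle -/
theorem tri_ne {c d : Sd I} (hc : c.1 ∈ S.F) (h : d.1 = c.1) (hne : c ≠ d) : ¬ S.Eqv c d :=
  fun he => hne (U.base.tri c d hc h he)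

/-- 8.2 -/
theorem mem_X {u : Sd I} (he : S.Eqv (unrot (S.g a)) u) : u.1 ∈ S.pB pt a w' := by
  by_contra hu
  have hl := U.base.lin
  have hbF : (S.g a).1 ∈ S.F := U.fb.1
  have ga := U.u.glued
  obtain ⟨c, h1, h2, h3⟩ := exists_cross_bd hl he (X := S.pB pt a w')
    (fun h4 => hu (h4.1 U.b_mem))
  rw [U.bd_pB] at h3
  simp only [mem_insert, mem_singleton] at h3
  -- `a` and `rot (g a)` are at `v`
  have v1 : S.Eqv a (rot (S.g a)) := Eqv.of_glued ga
  have v2 : S.Eqv a (S.hi pt w') := (U.om.pr.eqv).trans U.om.pr.b'.eqv_hi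
  have nv : ¬ S.Eqv (unrot (S.g a)) a := fun h4 =>
    U.tri_ne (c := unrot (S.g a)) (d := rot (S.g a)) hbF rfl (unrot_ne_rot _) (h4.trans v1)
  rcases h3 with (h3 | h3) | (h3 | h3)
  · -- c = g a
    rw [h3] at h1
    exact U.tri_ne (c := unrot (S.g a)) (d := S.g a) hbF rfl (unrot_ne _) h1
  · -- c = hi w'
    rw [h3] at h1
    exact nv (h1.trans v2.symm)
  · -- g c = g a
    have : c = a := S.g_injective h3
    rw [this] at h1
    exact nv h1
  · -- g c = hi w': `w` is the other end of the second stub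
    have hk : S.g (rot (S.g a)) ≠ rot (S.g a) := Face.g (c := rot (S.g a)) U.fb
    have e1 : S.Eqv (unrot (S.g a)) (S.g (rot (S.g a))) := by
      have := Eqv.of_glued' hk
      rwa [rot_rot] at this
    have e2 : S.Eqv (rot (S.g a)) (rot (S.g (rot (S.g a)))) := Eqv.of_glued hk
    have e3 : S.Eqv (rot c) (S.hi pt w') := by
      have := Eqv.of_glued' h2
      rwa [h3] at this
    have h5 : c = S.g (rot (S.g a)) := U.base.seg c _ h2 (g_ne_iff.2 hk) (h1.symm.trans e1)
      (e3.trans ((v2.symm.trans v1).trans e2))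
    have h6 : S.hi pt w' = rot (S.g a) := by rw [← h3, h5, S.invol]
    exact U.base.bl.face_cut' (X := S.pB pt a w') sdiff_subset (c := S.g a) (d := rot (S.g a))
      U.fb rfl (rot_ne _).symm (Or.inl rfl) (Or.inl rfl) (by rw [U.bd_pB, h6])

/-- the flipped object -/
theorem cex' : Cex (S.flip a U.flippable) (flipPt pt a (S.g a)) R :=
  U.om.cex.flip U.u U.flippable

theorem base' : Base (S.flip a U.flippable) (flipPt pt a (S.g a)) := U.cex'.base

theorem virtA' : (S.flip a U.flippable).VirtA (flipPt pt a (S.g a)) (unrot (S.g a)) :=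
  U.c8.virtA_flip U.flippable U.vA U.y

/-- `w` is not an ear end -/
theorem not_earEnd : ¬ S.EarEnd (unrot (S.g a)) := fun h =>
  U.base'.earEnd _ _ (U.c8.earEnd_flip U.flippable U.base'.lin h) (Or.inr (Or.inl U.virtA'))
    (Eqv.refl _ _)

/-- a glued side of the outer region between a set `Z` and the rest of the outer region -/
theorem exists_O {Z : Finset I} (hZ : Z ⊆ S.pO pt a w') (hne : Z.Nonempty) (ha : a.1 ∉ Z) :
    ∃ e, S.g e ≠ e ∧ e.1 ∈ Z ∧ (S.g e).1 ∉ Z ∧ (S.g e).1 ∈ S.pO pt a w' := by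
  obtain ⟨e, h1, h2⟩ := exists_inner U.base.conn U.base.bl U.iO.sub
    (by rw [U.iO.card U.base.loopless]; omega) hZ hne (fun e => ha (by rw [e]; exact U.a_mem_pO))
  rw [mem_bd] at h1
  exact ⟨e, h1.1, h1.2.1, h1.2.2, h2⟩

/-- the same in the flipped object -/
theorem exists_O' {Z : Finset I} (hZ : Z ⊆ S.pO pt a w') (hne : Z.Nonempty) (ha : a.1 ∉ Z) :
    ∃ e, e ∈ (S.flip a U.flippable).bd Z ∧
      (((S.flip a U.flippable).g e).1 = a.1 ∨ ((S.flip a U.flippable).g e).1 = (S.g a).1 ∨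
        ((S.flip a U.flippable).g e = S.g e ∧ (S.g e).1 ∈ S.pO pt a w')) ∧
        e.1 ∈ S.pO pt a w' := by
  obtain ⟨e, h1, h2, h3, h4⟩ := U.exists_O hZ hne ha
  have hb : (S.g a).1 ∉ S.pO pt a w' := (U.mem_pB.1 U.b_mem).2
  have k1 : e.1 ≠ a.1 := fun h5 => ha (by rw [← h5]; exact h2)
  have k2 : e.1 ≠ (S.g a).1 := fun h5 => hb (by rw [← h5]; exact hZ h2)
  have k3 : (S.g e).1 ≠ (S.g a).1 := fun h5 => hb (by rw [← h5]; exact h4)
  by_cases k4 : (S.g e).1 = a.1
  · have k5 : ((S.flip a U.flippable).g e).1 = a.1 ∨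
        ((S.flip a U.flippable).g e).1 = (S.g a).1 := by
      rw [flip_g_of_fst U.flippable k1 k2]
      exact sigF_fst_mem (Or.inl k4)
    have k6 : ((S.flip a U.flippable).g e).1 ∉ Z := by
      rcases k5 with k5 | k5
      · rw [k5]; exact ha
      · rw [k5]; exact fun h5 => hb (hZ h5)
    refine ⟨e, mem_bd.2 ⟨?_, h2, k6⟩, ?_, hZ h2⟩
    · exact fun h5 => h1 ((flip_glued_iff U.flippable k1 k2).1 h5)
    · rcases k5 with k5 | k5
      · exact Or.inl k5
      · exact Or.inr (Or.inl k5)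
  · have k5 : (S.flip a U.flippable).g e = S.g e := flip_g_eq U.flippable k1 k2 k4 k3
    refine ⟨e, mem_bd.2 ⟨?_, h2, ?_⟩, Or.inr (Or.inr ⟨k5, h4⟩), hZ h2⟩
    · rw [k5]; exact h1
    · rw [k5]; exact h3

/-- 8.4: no blade at `w` above `W` -/
theorem no_above {u : Sd I} (hu : S.BladeAt pt u) (he : S.Eqv (unrot (S.g a)) u)
    (hlt : S.ps (unrot (S.g a)) < S.ps u) : False := by
  have hl := U.base.lin
  set S' := S.flip a U.flippable with hS'
  set pt' := flipPt pt a (S.g a) with hpt'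
  have hl' : S'.Linear := U.base'.lin
  have off := U.c8.off_of_eqv he (U.c8.ne_W hu)
  obtain ⟨e1, p1⟩ := U.c8.ps_gt U.flippable hl' he hlt
  have p0 := U.c8.ps_W U.flippable hl'
  obtain ⟨e2, p2⟩ := U.c8.ps_new U.flippable hl'
  rw [← hS'] at e1 p1 p0 e2 p2
  have hb' : S'.BladeAt pt' u := by
    rcases U.c8.bladeAt_persist U.flippable U.vA he hu with h | h | h
    · exact Or.inl h.2
    · exact Or.inr (Or.inl h.2)
    · exact Or.inr (Or.inr h.2)
  have hpr : S'.Pr pt' (unrot (S.g a)) u :=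
    ⟨Or.inr (Or.inl U.virtA'), hb', e1, by rw [p0, p1]; omega⟩
  have lo' : S'.lo pt' (unrot (S.g a)) = unrot (S.g a) := lo_of_not_B U.virtA'.not_B
  have hi' : S'.hi pt' (unrot (S.g a)) = unrot (S.g a) := hi_of_A U.virtA'
  have iA : S'.IsIn (S'.hi pt' (unrot (S.g a))) (S'.lo pt' u)
    (S'.pA pt' (unrot (S.g a)) u) := U.base'.isIn_pA hpr
  have iO' : S'.IsIn (S'.lo pt' (unrot (S.g a))) (S'.hi pt' u)
    (S'.pO pt' (unrot (S.g a)) u) := U.base'.isIn_pO hpr
  rw [hi'] at iA
  rw [lo'] at iO'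
  have hlo := hb'.ps_lo hl'
  have hhi := hb'.ps_hi hl'
  have hr' := U.base'.loopless
  -- not trivial
  have hnt : ¬ S'.Triv pt' (unrot (S.g a)) u := by
    rintro ⟨c, _, hc⟩
    have m1 : (unrot (S.g a)).1 ∈ S'.pA pt' (unrot (S.g a)) u := (mem_bd.1 iA.mem_left).2.1
    have m2 : (rot a).1 ∈ S'.pA pt' (unrot (S.g a)) u := by
      rw [iA.mem_iff hl' hr' e2]
      omega
    rw [hc, mem_singleton] at m1 m2
    exact U.c8.ne (by
      change (unrot (S.g a)).1 = (rot a).1
      rw [m1, m2])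
  have hmin := U.om.min S' pt' _ _ U.cex' (flip_glued_card U.flippable) hpr hnt
  -- the new outer region contains the old one and the triangle of `W`
  have mW : (unrot (S.g a)).1 ∈ S'.pO pt' (unrot (S.g a)) u := (mem_bd.1 iO'.mem_left).2.1
  have ma : (rot a).1 ∈ S'.pO pt' (unrot (S.g a)) u := by
    rw [iO'.mem_iff hl' hr' e2]
    omega
  have hsub : S.pO pt a w' ⊆ S'.pO pt' (unrot (S.g a)) u := by
    by_contra hcon
    have hne : (S.pO pt a w' \ S'.pO pt' (unrot (S.g a)) u).Nonempty := sdiff_nonempty.2 hcon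
    obtain ⟨e, h1, h2, h3⟩ := U.exists_O' (Z := S.pO pt a w' \ S'.pO pt' (unrot (S.g a)) u)
      sdiff_subset hne (fun h4 => (mem_sdiff.1 h4).2 ma)
    rw [← hS'] at h1 h2
    obtain ⟨g1, g2, g3⟩ := mem_bd.1 h1
    have g4 : (S'.g e).1 ∈ S'.pO pt' (unrot (S.g a)) u := by
      rcases h2 with h2 | h2 | ⟨h2, h4⟩
      · rw [h2]; exact ma
      · rw [h2]; exact mW
      · by_contra h5
        exact g3 (mem_sdiff.2 ⟨by rw [h2]; exact h4, h5⟩)
    have g5 : S'.g e ∈ S'.bd (S'.pO pt' (unrot (S.g a)) u) :=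
      mem_bd.2 ⟨g_ne_iff.2 g1, g4, by rw [S'.invol]; exact (mem_sdiff.1 g2).2⟩
    rw [iO'.bd, mem_insert, mem_singleton] at g5
    have h3X : e.1 ∉ S.pB pt a w' := fun h4 => (U.mem_pB.1 h4).2 h3
    rcases g5 with g5 | g5
    · -- e = g' W = g W
      have : e = S.g (unrot (S.g a)) := by
        rw [← U.c8.flip_W U.flippable, ← hS', ← g5, S'.invol]
      apply h3X
      rw [this]
      have h6 := U.mem_X ((S.cw_eqv (unrot (S.g a))))
      rwa [cw_fst U.c8.gW] at h6
    · -- e = hi' u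
      have : e = S'.hi pt' u := S'.g_injective g5
      apply h3X
      rw [this]
      by_cases hA : S'.VirtA pt' u
      · rw [hi_of_A hA]; exact U.mem_X he
      · rw [hi_of_not_A hA]
        -- the corner above `u`
        have gu := hu.glued'
        have h7 : S.Eqv (unrot (S.g a)) (S.ccw u) := he.trans (ccw_eqv gu)
        have h8 : S.ccw u ≠ unrot (S.g a) := by
          intro h9
          have := ps_ccw hl gu
          rw [h9] at this
          omega
        have off2 := U.c8.off_of_eqv h7 h8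
        rw [ccw_of_glued gu] at off2
        have h9 : S'.g (unrot u) = S.g (unrot u) := off_flip_g U.flippable off.unrot off2
        have h10 : S'.ccw u = S.ccw u := by
          rw [ccw_of_glued gu, ccw_of_glued (by rw [h9]; exact gu), h9]
        rw [h10]
        exact U.mem_X h7
  have hss : S'.pB pt' (unrot (S.g a)) u ⊂ S.pB pt a w' := by
    rw [Finset.ssubset_iff_of_subset]
    · refine ⟨(S.g a).1, U.b_mem, fun h1 => ?_⟩
      unfold pB at h1
      exact (mem_sdiff.1 h1).2 mW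
    · intro t ht
      unfold pB at ht
      rw [mem_sdiff] at ht
      exact U.mem_pB.2 ⟨ht.1, fun h1 => ht.2 (hsub h1)⟩
  have := card_lt_card hss
  omega

/-- the corner `b` at `x` of the second triangle is not a blade -/
theorem not_bladeAt_b : ¬ S.BladeAt pt (S.g a) := by
  have hk : S.g (rot (S.g a)) ≠ rot (S.g a) := Face.g (c := rot (S.g a)) U.fb
  have he : S.Eqv (unrot (S.g a)) (S.g (rot (S.g a))) := by
    have := Eqv.of_glued' hk
    rwa [rot_rot] at this
  have hu2 : S.g (unrot (unrot (S.g a))) ≠ unrot (unrot (S.g a)) := by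
    rw [unrot_unrot]; exact hk
  have hcc : S.ccw (unrot (S.g a)) = S.g (rot (S.g a)) := by
    rw [ccw_of_glued hu2, unrot_unrot]
  rintro (h1 | h1 | h1)
  · exact h1.not_face U.fb
  · -- VirtA: a real blade at `w` above `W`
    refine U.no_above (Or.inl h1.blade) he ?_
    have := ps_ccw U.base.lin hu2
    rw [hcc] at this
    omega
  · -- VirtB: a real blade at `v` with triangle in the region
    have h2 : S.Eqv (rot (S.g (rot (S.g a)))) a := by
      have e1 := Eqv.of_glued hk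
      have e2 := Eqv.of_glued U.u.glued
      exact (e2.trans e1).symm
    exact U.vr _ (Or.inl h1.blade) h2.symm (by
      have := U.mem_X he
      exact this)

end U8

end Obj

end AG
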