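import Pool.Agent.AG.S8.S82

/-!
# Project AG, section 8: 8.5-8.7   (helper86)
-/

set_option linter.unusedSectionVars false

namespace AG

open Finset

variable {I : Type} [DecidableEq I]

namespace Obj

namespace U8

variable {S : Obj I} {pt : Sd I → Pt} {R : Set Pt} {a w' : Sd I} (U : S.U8 pt R a w')
include U

/-- the visit of `w` is not the visit of `v` -/
theorem w_ne_v : ¬ S.Eqv (unrot (S.g a)) a := fun h4 =>
  U.tri_ne (c := unrot (S.g a)) (d := rot (S.g a)) U.fb.1 rfl (unrot_ne_rot _)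
    (h4.trans (Eqv.of_glued U.u.glued))

/-- 8.5 -/
theorem b_not_mem {q : Sd I × Sd I} (hq : q ∈ S.CP pt (S.pB pt a w') (S.Eqv a)) :
    (S.g a).1 ∉ S.pA pt q.1 q.2 := by
  intro hm
  have hB := U.base
  obtain ⟨cq, m1, m2, hv⟩ := mem_CP.1 hq
  have hsub := U.env.subA q hq
  have h1 : S.g a ∈ S.bd (S.pA pt q.1 q.2) :=
    mem_bd.2 ⟨g_ne_iff.2 U.u.glued, hm, fun h2 => U.a_not_mem (by
      have := hsub h2; rwa [S.invol] at this)⟩
  rw [(hB.isIn_pA cq.toPr).bd, mem_insert, mem_singleton] at h1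
  rcases h1 with h1 | h1
  · by_cases hA : S.VirtA pt q.1
    · rw [hi_of_A hA] at h1
      exact U.not_bladeAt_b (by rw [h1]; exact cq.toPr.b)
    · rw [hi_of_not_A hA] at h1
      have h2 : a = unrot q.1 := by
        rw [← S.invol a, h1, g_ccw cq.toPr.b.glued']
      have h3 : a.1 = (unrot q.1).1 := congrArg Prod.fst h2
      exact U.a_not_mem (by rw [h3]; exact m1)
  · have h2 : a = S.lo pt q.2 := S.g_injective h1
    apply hv
    have h3 := cq.toPr.b'.eqv_lo
    rw [← h2] at h3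
    exact (cq.toPr.eqv.trans h3).symm

/-- the three sets of the torso of `R` are empty -/
theorem torso0 :
    S.candT pt (S.pB pt a w') (S.Eqv a) (S.kids pt (S.pB pt a w') (S.Eqv a))
        (fun q => S.pA pt q.1 q.2) = ∅ ∧
      S.earsT (S.pB pt a w') (S.kids pt (S.pB pt a w') (S.Eqv a))
        (fun q => S.pA pt q.1 q.2) = ∅ ∧
      S.zrT pt (S.pB pt a w') (S.Eqv a) (S.kids pt (S.pB pt a w') (S.Eqv a))
        (fun q => S.pA pt q.1 q.2) (fun q => q.1) = ∅ := by
  have h := U.env.adm_R.torso U.env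
  refine ⟨card_eq_zero.1 ?_, card_eq_zero.1 ?_, card_eq_zero.1 ?_⟩ <;> omega

/-- D2 -/
theorem vir_in_kid {w : Sd I} (hw : S.Vir pt w) (hm : w.1 ∈ S.pB pt a w') :
    ∃ q ∈ S.CP pt (S.pB pt a w') (S.Eqv a), w.1 ∈ S.pA pt q.1 q.2 := by
  classical
  by_contra hcon
  push Not at hcon
  have h0 := U.torso0.1
  have h1 : w ∈ S.candT pt (S.pB pt a w') (S.Eqv a) (S.kids pt (S.pB pt a w') (S.Eqv a))
      (fun q => S.pA pt q.1 q.2) := by
    unfold candT
    rw [mem_filter, mem_CandK]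
    exact ⟨⟨hw, hm, fun h => U.vr w hw.bladeAt h hm⟩, fun q hq => hcon q (kids_sub hq)⟩
  rw [h0] at h1
  exact notMem_empty _ h1

/-- 8.6, first part: `w` has a blade -/
theorem exists_blade : ∃ u, S.BladeAt pt u ∧ S.Eqv (unrot (S.g a)) u := by
  classical
  by_contra hcon
  push Not at hcon
  have hB := U.base
  have hl := hB.lin
  have hWF : (unrot (S.g a)) ∈ S.sides := mem_sides.2 U.fb.1
  have hz1 := last_mem_vis hl hWF
  have hz2 := S.last_eqv (unrot (S.g a))
  set z := S.last (unrot (S.g a)) with hz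
  have hzr : z ∈ S.Zr pt (S.pB pt a w') (S.Eqv a) := by
    rw [mem_Zr]
    refine ⟨mem_vis.1 hz1, fun h => U.w_ne_v (h.trans hz2.symm).symm, ⟨_, hz2, U.b_mem⟩,
      fun w hw _ he => hcon w hw (hz2.trans he.symm)⟩
  obtain ⟨_, t2, t3⟩ := U.torso0
  have hn : z ∉ S.zrT pt (S.pB pt a w') (S.Eqv a) (S.kids pt (S.pB pt a w') (S.Eqv a))
      (fun q => S.pA pt q.1 q.2) (fun q => q.1) := by
    rw [t3]; exact notMem_empty _
  unfold zrT at hn
  rw [mem_filter, t2] at hn
  have hn2 : ¬ ∀ q ∈ S.kids pt (S.pB pt a w') (S.Eqv a), S.Meets (S.pA pt q.1 q.2) z →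
      S.BLg pt (S.pA pt q.1 q.2) q.1 z := fun h =>
    hn ⟨hzr, h, fun c hc => absurd hc (notMem_empty _)⟩
  push Not at hn2
  obtain ⟨q, hq, ⟨z1, e1, m1⟩, hbl⟩ := hn2
  have hq' := kids_sub hq
  obtain ⟨cq, mq1, mq2, hv⟩ := mem_CP.1 hq'
  have hp := cq.toPr
  have iq := hB.isIn_pA hp
  have hW : (unrot (S.g a)).1 ∉ S.pA pt q.1 q.2 := U.b_not_mem hq'
  have eW : S.Eqv z1 (unrot (S.g a)) := e1.trans hz2.symm
  have hne : ¬ S.Eqv (S.hi pt q.1) z1 := fun h =>
    hcon q.1 hp.b ((hp.b.eqv_hi.trans h).trans eW).symm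
  have hnf1 : ¬ ∀ {c : Sd I}, S.Blade c → c.1 ≠ (S.g a).1 → False := fun h => by
    exact h (c := S.g (rot a)) U.vA.blade U.c8.off_t.2
  rcases iq.reg2.outside hB hne m1 eW hW with ⟨h1, _⟩ | ⟨h1, _⟩
  · -- exit
    rcases hB.out_upper hp.b' iq.reg2 (h1.symm.trans eW) hW with h2 | h2 | h2
    · exact h2.1.not_face (by
        have : q.2.1 = (S.g a).1 := by
          change (rot q.2).1 = (unrot (S.g a)).1
          rw [← h2.2]
        rw [this]; exact U.fb)
    · obtain ⟨hA, h3 | h3⟩ := h2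
      · -- q.2 = rot (g a) is at `v`
        have h4 : q.2 = rot (S.g a) := by
          rw [← unrot_rot q.2, ← h3, unrot_unrot]
        apply hv
        have h5 : S.Eqv a q.2 := by rw [h4]; exact Eqv.of_glued U.u.glued
        exact h5.trans hp.eqv.symm
      · exact hA.blade.not_face (by
          have : (S.g (rot q.2)).1 = (S.g a).1 := by
            change (rot (S.g (rot q.2))).1 = (unrot (S.g a)).1
            rw [← h3]
          rw [this]; exact U.fb)
    · obtain ⟨hVB, h3⟩ := h2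
      apply hbl
      refine ⟨q.2, Or.inr hVB, hp.eqv.symm, (hB.mem_pA_right hp).2 hVB, ?_⟩
      rw [xc_of_not_A hVB.not_A]
      rcases h3 z1 eW.symm m1 with h4 | h4
      · rw [← h4]; exact e1
      · have h5 := Eqv.of_glued' hVB.glued_rot
        rw [rot_rot, ← h4] at h5
        exact h5.trans e1
  · -- entry
    rcases hB.out_lower hp.b iq.reg2 (h1.symm.trans eW) hW with h2 | h2 | h2
    · exact h2.1.not_face (by
        have : q.1.1 = (S.g a).1 := by
          change (unrot q.1).1 = (unrot (S.g a)).1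
          rw [← h2.2]
        rw [this]; exact U.fb)
    · obtain ⟨hVB, h3 | h3⟩ := h2
      · have h4 : q.1 = S.g a := by
          rw [← rot_unrot q.1, ← h3, rot_unrot]
        exact U.not_bladeAt_b (by rw [← h4]; exact hp.b)
      · exact hVB.blade.not_face (by
          have : (rot (S.g (rot q.1))).1 = (S.g a).1 := by
            change (S.g (rot q.1)).1 = (unrot (S.g a)).1
            rw [← h3]
          rw [this]; exact U.fb)
    · obtain ⟨hA, h3⟩ := h2
      apply hbl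
      refine ⟨q.1, Or.inl hA, Eqv.refl _ _, (hB.mem_pA_left hp).2 hA, ?_⟩
      rw [xc_of_A hA]
      rcases h3 z1 eW.symm m1 with h4 | h4
      · rw [← h4]; exact e1
      · have h5 := Eqv.of_glued hA.glued_rot
        rw [← h4] at h5
        exact h5.trans e1

/-- blades at `w` are below `W` -/
theorem below {u : Sd I} (hu : S.BladeAt pt u) (he : S.Eqv (unrot (S.g a)) u) :
    S.ps u < S.ps (unrot (S.g a)) := by
  rcases Nat.lt_trichotomy (S.ps u) (S.ps (unrot (S.g a))) with h | h | h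
  · exact h
  · exact absurd (ps_inj U.base.lin he.symm h) (U.c8.ne_W hu)
  · exact absurd h (fun h => U.no_above hu he h)

/-- the nearest blade -/
theorem exists_nearest : ∃ u, S.BladeAt pt u ∧ S.Eqv (unrot (S.g a)) u ∧
    ∀ v, S.BladeAt pt v → S.Eqv (unrot (S.g a)) v → S.ps v ≤ S.ps u := by
  classical
  obtain ⟨u0, h0, h0'⟩ := U.exists_blade
  obtain ⟨u, hu, hmax⟩ := (S.sides.filter (fun v => S.BladeAt pt v ∧
    S.Eqv (unrot (S.g a)) v)).exists_max_image S.ps
    ⟨u0, by rw [mem_filter, mem_sides]; exact ⟨h0.memF, h0, h0'⟩⟩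
  rw [mem_filter] at hu
  refine ⟨u, hu.2.1, hu.2.2, fun v hv hv' => hmax v ?_⟩
  rw [mem_filter, mem_sides]
  exact ⟨hv.memF, hv, hv'⟩

/-- the higher stub corner of the blade `u` at `w` is the same in the flip -/
theorem hi_flip {u : Sd I} (hu : S.BladeAt pt u) (he : S.Eqv (unrot (S.g a)) u) :
    (S.flip a U.flippable).hi (flipPt pt a (S.g a)) u = S.hi pt u := by
  have off := U.c8.off_of_eqv he (U.c8.ne_W hu)
  have hcc : (S.flip a U.flippable).ccw u = S.ccw u := by
    have gu := hu.glued'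
    have h7 : S.Eqv (unrot (S.g a)) (S.ccw u) := he.trans (ccw_eqv gu)
    have h9 : (S.flip a U.flippable).g (unrot u) = S.g (unrot u) := by
      by_cases h8 : S.ccw u = unrot (S.g a)
      · rw [ccw_of_glued gu] at h8
        have h10 := U.c8.flip_W U.flippable
        have h11 : S.g (unrot (S.g a)) = unrot u := by rw [← h8, S.invol]
        rw [h11] at h10
        rw [h8, ← h10, (S.flip a U.flippable).invol]
      · have off2 := U.c8.off_of_eqv h7 h8
        rw [ccw_of_glued gu] at off2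
        exact off_flip_g U.flippable off.unrot off2
    rw [ccw_of_glued gu, ccw_of_glued (by rw [h9]; exact gu), h9]
  rcases U.c8.bladeAt_persist U.flippable U.vA he hu with h | h | h
  · rw [hi_of_not_A h.1.not_A, hi_of_not_A h.2.not_A, hcc]
  · rw [hi_of_A h.1, hi_of_A h.2]
  · rw [hi_of_not_A h.1.not_A, hi_of_not_A h.2.not_A, hcc]

/-- 8.6: the set `A1` for the blade `u` at `w` -/
theorem exists_A1 {u : Sd I} (hu : S.BladeAt pt u) (he : S.Eqv (unrot (S.g a)) u) :
    ∃ A, S.IsIn (S.hi pt u) (unrot (S.g a)) A ∧ A ⊆ S.pB pt a w' ∧ (S.g a).1 ∉ A := by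
  have hl := U.base.lin
  have hlt := U.below hu he
  set S' := S.flip a U.flippable with hS'
  set pt' := flipPt pt a (S.g a) with hpt'
  have hl' : S'.Linear := U.base'.lin
  have hr' := U.base'.loopless
  obtain ⟨e1, p1⟩ := U.c8.ps_le U.flippable hl' he hlt.le
  have p0 := U.c8.ps_W U.flippable hl'
  obtain ⟨e2, p2⟩ := U.c8.ps_new U.flippable hl'
  rw [← hS'] at e1 p1 p0 e2 p2
  have hb' : S'.BladeAt pt' u := by
    rcases U.c8.bladeAt_persist U.flippable U.vA he hu with h | h | h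
    · exact Or.inl h.2
    · exact Or.inr (Or.inl h.2)
    · exact Or.inr (Or.inr h.2)
  have hpr : S'.Pr pt' u (unrot (S.g a)) :=
    ⟨hb', Or.inr (Or.inl U.virtA'), e1.symm, by rw [p0, p1]; omega⟩
  have lo' : S'.lo pt' (unrot (S.g a)) = unrot (S.g a) := lo_of_not_B U.virtA'.not_B
  have iA : S'.IsIn (S'.hi pt' u) (S'.lo pt' (unrot (S.g a)))
    (S'.pA pt' u (unrot (S.g a))) := U.base'.isIn_pA hpr
  have hhi : S'.hi pt' u = S.hi pt u := U.hi_flip hu he
  rw [lo', hhi] at iA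
  have e3 : S'.Eqv (S.hi pt u) (unrot (S.g a)) := iA.eqv
  have mW : (unrot (S.g a)).1 ∉ S'.pA pt' u (unrot (S.g a)) := by
    rw [iA.mem_iff hl' hr' e3]; omega
  have ma : (rot a).1 ∉ S'.pA pt' u (unrot (S.g a)) := by
    rw [iA.mem_iff hl' hr' (e3.trans e2)]; omega
  have hdisj : ∀ t ∈ S'.pA pt' u (unrot (S.g a)), t ∉ S.pO pt a w' := by
    by_contra hcon
    push Not at hcon
    obtain ⟨t, ht1, ht2⟩ := hcon
    have hne : (S.pO pt a w' ∩ S'.pA pt' u (unrot (S.g a))).Nonempty :=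
      ⟨t, mem_inter.2 ⟨ht2, ht1⟩⟩
    obtain ⟨e, h1, h2, h3⟩ := U.exists_O'
      (Z := S.pO pt a w' ∩ S'.pA pt' u (unrot (S.g a)))
      inter_subset_left hne (fun h4 => ma (mem_inter.1 h4).2)
    rw [← hS'] at h1 h2
    obtain ⟨g1, g2, g3⟩ := mem_bd.1 h1
    have g4 : (S'.g e).1 ∉ S'.pA pt' u (unrot (S.g a)) := by
      rcases h2 with h2 | h2 | ⟨h2, h4⟩
      · rw [h2]; exact ma
      · rw [h2]; exact mW
      · intro h5
        exact g3 (mem_inter.2 ⟨by rw [h2]; exact h4, h5⟩)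
    have g5 : e ∈ S'.bd (S'.pA pt' u (unrot (S.g a))) :=
      mem_bd.2 ⟨g1, (mem_inter.1 g2).2, g4⟩
    rw [iA.bd, mem_insert, mem_singleton] at g5
    have h3X : e.1 ∉ S.pB pt a w' := fun h4 => (U.mem_pB.1 h4).2 h3
    rcases g5 with g5 | g5
    · apply h3X
      rw [g5]
      exact U.mem_X (he.trans hu.eqv_hi)
    · apply h3X
      rw [g5, hS', U.c8.flip_W U.flippable]
      have h6 := U.mem_X ((S.cw_eqv (unrot (S.g a))))
      rwa [cw_fst U.c8.gW] at h6
  refine ⟨S'.pA pt' u (unrot (S.g a)), ?_, fun t ht => U.mem_pB.2 ⟨iA.sub ht, hdisj t ht⟩, mW⟩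
  have hbd : S.bd (S'.pA pt' u (unrot (S.g a))) = {S.hi pt u, S.g (unrot (S.g a))} := by
    rw [← flip_bd U.flippable ma mW, ← hS', iA.bd, hS', U.c8.flip_W U.flippable]
  have hehi : S.Eqv (unrot (S.g a)) (S.hi pt u) := he.trans hu.eqv_hi
  have hps : S.ps (S.hi pt u) < S.ps (unrot (S.g a)) := by
    have h1 := hu.ps_hi hl
    have h2 := iA.lt
    rw [p0, (U.c8.ps_le U.flippable hl' hehi (by omega)).2] at h2
    exact h2
  exact ⟨hu.glued_hi, U.c8.gW, hehi.symm, hps, iA.sub, hbd⟩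

end U8

end Obj

end AG
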