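import Pool.Agent.AG.S8.S83

/-!
# Project AG, section 8: 8.7, 8.8   (helper86)
-/

set_option linter.unusedSectionVars false

namespace AG

open Finset

variable {I : Type} [DecidableEq I]

namespace Obj

/-- the situation of 8.7, 8.8: `u` is the nearest blade at `w`, `A` the set `A1` -/
structure N8 (S : Obj I) (pt : Sd I → Pt) (R : Set Pt) (a w' u : Sd I) (A : Finset I) : Prop where
  U : S.U8 pt R a w'
  hu : S.BladeAt pt u
  he : S.Eqv (unrot (S.g a)) u
  hmax : ∀ v, S.BladeAt pt v → S.Eqv (unrot (S.g a)) v → S.ps v ≤ S.ps u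
  iA : S.IsIn (S.hi pt u) (unrot (S.g a)) A
  sub : A ⊆ S.pB pt a w'
  nb : (S.g a).1 ∉ A

namespace N8

variable {S : Obj I} {pt : Sd I → Pt} {R : Set Pt} {a w' u : Sd I} {A : Finset I}
  (N : S.N8 pt R a w' u A)
include N

theorem base : Base S pt := N.U.base

theorem he' : S.Eqv (S.hi pt u) (unrot (S.g a)) := N.iA.eqv

/-- 8.7 -/
theorem not_sub {q : Sd I × Sd I} (hq : q ∈ S.CP pt (S.pB pt a w') (S.Eqv a)) :
    ¬ A ⊆ S.pA pt q.1 q.2 := by
  intro hs
  have hB := N.base
  have hl := hB.lin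
  obtain ⟨cq, m1, m2, hv⟩ := mem_CP.1 hq
  have hp := cq.toPr
  have hlt := N.U.below N.hu N.he
  have h1 : S.g (unrot (S.g a)) ∈ S.bd (S.pA pt q.1 q.2) := by
    refine mem_bd.2 ⟨g_ne_iff.2 N.U.c8.gW, hs (mem_bd.1 N.iA.mem_right).2.1, ?_⟩
    rw [S.invol]
    exact N.U.b_not_mem hq
  rw [(hB.isIn_pA hp).bd, mem_insert, mem_singleton] at h1
  rcases h1 with h1 | h1
  · by_cases hA : S.VirtA pt q.1
    · rw [hi_of_A hA] at h1
      -- the fan of `w` below `W` is `rot q.1`, `rot (g (rot q.1))`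
      have g1 : S.g (rot q.1) ≠ rot q.1 := hA.glued_rot
      have g2 : S.g (rot (S.g (rot q.1))) = rot (S.g (rot q.1)) := hA.blade.2.2.1
      have c1 : S.cw (unrot (S.g a)) = rot q.1 := by
        rw [cw_of_glued N.U.c8.gW, h1]
      have c2 : S.cw (rot q.1) = rot (S.g (rot q.1)) := cw_of_glued g1
      have p1 := ps_of_glued hl N.U.c8.gW
      have p2 := ps_of_glued hl g1
      have p3 := ps_of_unglued g2
      rw [c1] at p1
      rw [c2, p3] at p2
      have e1 : S.Eqv (unrot (S.g a)) (rot q.1) := by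
        have := S.cw_eqv (unrot (S.g a)); rwa [c1] at this
      have gu : 0 < S.ps u := (ps_pos_iff hl).2 N.hu.glued
      have e2 : u = rot q.1 := ps_inj hl (N.he.symm.trans e1) (by omega)
      have e3 := hB.one u q.1 N.hu hp.b (by rw [e2]; rfl)
      rw [e3] at e2
      exact rot_ne _ e2.symm
    · rw [hi_of_not_A hA] at h1
      have h2 : unrot (S.g a) = unrot q.1 := by
        rw [← S.invol (unrot (S.g a)), h1, g_ccw hp.b.glued']
      have h3 : q.1 = S.g a := by rw [← rot_unrot q.1, ← h2, rot_unrot]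
      exact N.U.not_bladeAt_b (by rw [← h3]; exact hp.b)
  · have h2 : unrot (S.g a) = S.lo pt q.2 := S.g_injective h1
    by_cases hVB : S.VirtB pt q.2
    · rw [lo_of_B hVB] at h2
      have p1 := ps_ccw hl hp.b'.glued'
      have e1 : S.Eqv q.2 (S.ccw q.2) := ccw_eqv hp.b'.glued'
      rw [← h2] at p1 e1
      have k1 := N.hmax q.2 hp.b' e1.symm
      have k2 : u = q.2 := ps_inj hl (N.he.symm.trans e1.symm) (by omega)
      have k3 := N.iA.lt
      rw [k2, hi_of_not_A hVB.not_A, ← h2] at k3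
      exact lt_irrefl _ k3
    · rw [lo_of_not_B hVB] at h2
      exact N.U.c8.not_bladeAt_W (by rw [h2]; exact hp.b')

theorem union_ne {B : Finset I} (h : B ⊆ S.pB pt a w') : B ∪ A ≠ S.F := by
  intro e
  have : a.1 ∈ B ∪ A := by rw [e]; exact N.U.vA.face.1
  exact N.U.a_not_mem ((union_subset h N.sub) this)

/-- `u` is not a-like for `A` -/
theorem not_A : ¬ S.VirtA pt u := by
  intro hA
  have hB := N.base
  have hm : u.1 ∈ A := by
    have := (mem_bd.1 N.iA.mem_left).2.1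
    rwa [hi_of_A hA] at this
  obtain ⟨q, hq, hmq⟩ := N.U.vir_in_kid (Or.inl hA) (N.sub hm)
  obtain ⟨cq, m1, m2, hv⟩ := mem_CP.1 hq
  have hp := cq.toPr
  by_cases hvq : S.Eqv (unrot (S.g a)) q.1
  · rcases hB.blade_in_pA cq N.hu (hvq.symm.trans N.he) hmq with h1 | h1
    · have := N.hmax q.2 hp.b' (hvq.trans hp.eqv)
      have := hp.lt
      rw [← h1.1] at this
      omega
    · rw [← h1.1] at h1
      exact hA.not_B h1.2
  · have hne : ¬ S.Eqv (S.hi pt q.1) (S.hi pt u) := fun h =>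
      hvq ((hp.b.eqv_hi.trans h).trans N.he').symm
    rcases hB.laminar (hB.isIn_pA hp) N.iA hne (N.union_ne (N.U.env.subA q hq)) with h | h | h
    · exact (disjoint_left.1 h) hmq hm
    · exact hB.fan N.iA (hB.isIn_pA hp) (fun h => hne h.symm) h (N.he'.trans N.he) hm hmq
    · exact N.not_sub hq h

theorem hi_eq : S.hi pt u = S.ccw u := hi_of_not_A N.not_A

theorem ccw_mem : (S.ccw u).1 ∈ A := by
  have := (mem_bd.1 N.iA.mem_left).2.1
  rwa [N.hi_eq] at this

/-- no blade of the visit in `A` -/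
theorem hno {v : Sd I} (hv : S.BladeAt pt v) (h : S.Eqv (S.hi pt u) v) : v.1 ∉ A := by
  have hB := N.base
  rw [N.iA.mem_iff hB.lin hB.loopless h]
  have h1 := N.hmax v hv (N.he'.symm.trans h)
  have h2 := ps_ccw hB.lin N.hu.glued'
  rw [N.hi_eq]
  omega

/-- the corners at `x` below `g W` -/
theorem xvis {d : Sd I} (hd : S.Eqv (S.g (unrot (S.g a))) d)
    (hlt : S.ps d < S.ps (S.g (unrot (S.g a)))) :
    d = S.g a ∨ d = rot a ∨ d = rot (S.g (rot a)) := by
  have hl := N.base.lin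
  have g0 : S.g (S.g (unrot (S.g a))) ≠ S.g (unrot (S.g a)) := g_ne_iff.2 N.U.c8.gW
  have g1 : S.g (S.g a) ≠ S.g a := g_ne_iff.2 N.U.u.glued
  have g2 : S.g (rot a) ≠ rot a := N.U.vA.glued_rot
  have g3 : S.g (rot (S.g (rot a))) = rot (S.g (rot a)) := N.U.vA.blade.2.2.1
  have c0 : S.cw (S.g (unrot (S.g a))) = S.g a := by
    rw [cw_of_glued g0, S.invol, rot_unrot]
  have c1 : S.cw (S.g a) = rot a := by rw [cw_of_glued g1, S.invol]
  have c2 : S.cw (rot a) = rot (S.g (rot a)) := cw_of_glued g2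
  have p0 := ps_of_glued hl g0
  have p1 := ps_of_glued hl g1
  have p2 := ps_of_glued hl g2
  have p3 := ps_of_unglued g3
  have e0 := S.cw_eqv (S.g (unrot (S.g a)))
  have e1 := S.cw_eqv (S.g a)
  have e2 := S.cw_eqv (rot a)
  rw [c0] at p0 e0
  rw [c1] at p1 e1
  rw [c2] at p2 e2
  have hcase : S.ps d = 2 ∨ S.ps d = 1 ∨ S.ps d = 0 := by omega
  rcases hcase with h | h | h
  · left
    exact ps_inj hl (hd.symm.trans e0) (by omega)
  · right; left
    exact ps_inj hl ((hd.symm.trans e0).trans e1) (by omega)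
  · right; right
    exact ps_inj hl (((hd.symm.trans e0).trans e1).trans e2) (by omega)

/-- the corners outside `A` at a visit different from `w` which meets `A` -/
theorem outA {z d : Sd I} (hz : z.1 ∈ A) (hzd : S.Eqv z d) (hd : d.1 ∉ A)
    (hne : ¬ S.Eqv (S.hi pt u) z) :
    (d = S.g a ∨ d = rot a ∨ d = rot (S.g (rot a))) ∨
      ((S.Blade u ∧ d = unrot u) ∨ (S.VirtB pt u ∧ (d = unrot u ∨ d = S.g (rot u)))) := by
  have hB := N.base
  rcases N.iA.reg2.outside hB hne hz hzd hd with ⟨h1, h2⟩ | ⟨h1, h2⟩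
  · left
    exact N.xvis (h1.symm.trans hzd) h2
  · right
    rcases hB.out_lower N.hu N.iA.reg2 (h1.symm.trans hzd) hd with h3 | h3 | h3
    · exact Or.inl h3
    · exact Or.inr h3
    · exact absurd h3.1 N.not_A

/-- `t` is not in the region -/
theorem t_not_mem : (S.g (rot a)).1 ∉ S.pB pt a w' := by
  intro h
  have g2 : S.g (rot a) ≠ rot a := N.U.vA.glued_rot
  have h1 : S.g (rot a) ∈ S.bd (S.pB pt a w') :=
    mem_bd.2 ⟨g_ne_iff.2 g2, h, by rw [S.invol]; exact N.U.a_not_mem⟩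
  rw [N.U.bd_pB, mem_insert, mem_singleton] at h1
  rcases h1 with h1 | h1
  · exact N.U.c8.off_t.2 (by rw [h1])
  · have v2 : S.Eqv a (S.hi pt w') := (N.U.om.pr.eqv).trans N.U.om.pr.b'.eqv_hi
    have v3 := Eqv.of_glued' g2
    rw [rot_rot, h1] at v3
    exact N.U.tri_ne (c := a) (d := unrot a) N.U.vA.face.1 rfl (unrot_ne a).symm
      (v2.trans v3.symm)

theorem hzA {z : Sd I} (hne : ¬ S.Eqv (S.hi pt u) z) (hm : S.Meets A z)
    (hnb : ∀ w, S.BladeAt pt w → w.1 ∈ A → ¬ S.Eqv w z) : S.NoB pt z := by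
  intro w hw hwz
  obtain ⟨z1, e1, m1⟩ := hm
  have hwA : w.1 ∉ A := fun h => hnb w hw h hwz
  have hne1 : ¬ S.Eqv (S.hi pt u) z1 := fun h => hne (h.trans e1)
  rcases N.outA m1 (e1.trans hwz.symm) hwA hne1 with (h | h | h) | (⟨h0, h⟩ | ⟨h0, h | h⟩)
  · exact N.U.not_bladeAt_b (by rw [← h]; exact hw)
  · have := N.base.one w a hw (Or.inr (Or.inl N.U.vA)) (by rw [h]; rfl)
    rw [this] at h
    exact rot_ne a h.symm
  · exact hw.glued (by rw [h]; exact N.U.vA.blade.2.2.1)
  · have := N.base.one w u hw N.hu (by rw [h]; rfl)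
    rw [this] at h
    exact unrot_ne u h.symm
  · have := N.base.one w u hw N.hu (by rw [h]; rfl)
    rw [this] at h
    exact unrot_ne u h.symm
  · apply hw.glued'
    have := h0.blade.2.2.1
    rw [rot_rot] at this
    rw [h]; exact this

theorem hear {e : Sd I} (hE : S.Eared e) (heA : e.1 ∉ A) {z : Sd I} (hz : S.EndOf e z) :
    ¬ S.Meets A z := by
  rintro ⟨z1, e1, m1⟩
  have hend : S.EarEnd z := by
    refine ⟨rot e, hE.2.2, ?_⟩
    rcases hz with h | h
    · exact Or.inl h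
    · exact Or.inr (by rw [rot_rot]; exact h)
  have hne1 : ¬ S.Eqv (S.hi pt u) z1 := fun h =>
    N.base.earEnd z u hend N.hu ((h.trans e1).symm.trans (N.he'.trans N.he))
  have key : ∀ d : Sd I, d.1 = e.1 → S.Eqv d z → False := by
    intro d hd hdz
    rcases N.outA m1 (e1.trans hdz.symm) (by rw [hd]; exact heA) hne1 with
      (h | h | h) | (⟨h0, h⟩ | ⟨h0, h | h⟩)
    · exact hE.not_face (by rw [← hd, h]; exact N.U.fb)
    · exact hE.not_face (by rw [← hd, h]; exact N.U.vA.face)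
    · exact N.U.vA.blade.not_eared hE (by rw [← hd, h]; rfl)
    · exact h0.not_eared hE (by rw [← hd, h]; rfl)
    · exact hE.not_face (by rw [← hd, h]; exact h0.face)
    · exact h0.blade.not_eared hE (by rw [← hd, h]; rfl)
  rcases hz with h | h
  · exact key (rot e) rfl h
  · exact key (unrot e) rfl h

theorem hdich {q : Sd I × Sd I} (hq : q ∈ S.CP pt (S.pB pt a w') (S.Eqv a)) :
    Disjoint (S.pA pt q.1 q.2) A ∨
      (S.pA pt q.1 q.2 ⊆ A ∧ q ∈ S.CP pt A (S.Eqv (S.hi pt u))) := by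
  have hB := N.base
  have hl := hB.lin
  obtain ⟨cq, m1, m2, hv⟩ := mem_CP.1 hq
  have hp := cq.toPr
  have iq := hB.isIn_pA hp
  by_cases hvq : S.Eqv (unrot (S.g a)) q.1
  · left
    have e2 : S.Eqv (unrot (S.g a)) q.2 := hvq.trans hp.eqv
    have h1 := N.hmax q.2 hp.b' e2
    have h3 : S.ps (S.lo pt q.2) ≤ S.ps (S.hi pt u) := by
      rcases Nat.lt_or_ge (S.ps q.2) (S.ps u) with h4 | h4
      · have h5 := hB.int ⟨hp.b', N.hu, e2.symm.trans N.he, h4⟩
        have h6 := hp.b'.ps_lo_le_hi hl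
        have h7 := N.hu.ps_lo_le_hi hl
        omega
      · have h5 : q.2 = u := ps_inj hl (e2.symm.trans N.he) (by omega)
        rw [h5]
        exact N.hu.ps_lo_le_hi hl
    exact iq.disjoint hB.conn hl hB.loopless N.iA
      ((hp.b.eqv_hi.symm.trans hvq.symm).trans N.he'.symm) h3
  · have hne : ¬ S.Eqv (S.hi pt q.1) (S.hi pt u) := fun h =>
      hvq ((hp.b.eqv_hi.trans h).trans N.he').symm
    rcases hB.laminar iq N.iA hne (N.union_ne (N.U.env.subA q hq)) with h | h | h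
    · exact Or.inl h
    · right
      refine ⟨h, mem_CP.2 ⟨cq, ?_, ?_, fun h1 => hvq (N.he'.symm.trans h1)⟩⟩
      · by_contra hcon
        have hA : ¬ S.VirtA pt q.1 := fun hA => hcon (h ((hB.mem_pA_left hp).2 hA))
        have k1 := (mem_bd.1 iq.mem_left).2.1
        rw [hi_of_not_A hA] at k1
        have k2 : S.ccw q.1 ∈ S.bd A :=
          mem_bd.2 ⟨ccw_glued hp.b.glued', h k1, by rw [g_ccw hp.b.glued']; exact hcon⟩
        rw [N.iA.bd, mem_insert, mem_singleton] at k2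
        rcases k2 with k2 | k2
        · exact hne (by rw [← k2, hi_of_not_A hA]; exact Eqv.refl _ _)
        · have h2 : unrot (S.g a) = unrot q.1 := by
            rw [← S.invol (unrot (S.g a)), ← k2, g_ccw hp.b.glued']
          have h3 : q.1 = S.g a := by rw [← rot_unrot q.1, ← h2, rot_unrot]
          exact N.U.not_bladeAt_b (by rw [← h3]; exact hp.b)
      · by_contra hcon
        have hVB : ¬ S.VirtB pt q.2 := fun hA => hcon (h ((hB.mem_pA_right hp).2 hA))
        have k1 := (mem_bd.1 iq.mem_right).2.1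
        rw [lo_of_not_B hVB] at k1
        have k2 : S.g q.2 ∈ S.bd A :=
          mem_bd.2 ⟨g_ne_iff.2 hp.b'.glued, h k1, by rw [S.invol]; exact hcon⟩
        rw [N.iA.bd, mem_insert, mem_singleton] at k2
        rcases k2 with k2 | k2
        · rw [N.hi_eq] at k2
          have h2 : q.2 = unrot u := by
            rw [← S.invol q.2, k2, g_ccw N.hu.glued']
          have h3 := hB.one q.2 u hp.b' N.hu (by rw [h2]; rfl)
          rw [h3] at h2
          exact unrot_ne u h2.symm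
        · have h2 : q.2 = unrot (S.g a) := S.g_injective k2
          exact N.U.c8.not_bladeAt_W (by rw [← h2]; exact hp.b')
    · exact absurd h (N.not_sub hq)

theorem mem_CP_X {q : Sd I × Sd I} (hq : q ∈ S.CP pt A (S.Eqv (S.hi pt u))) :
    q ∈ S.CP pt (S.pB pt a w') (S.Eqv a) := by
  obtain ⟨cq, m1, m2, hv⟩ := mem_CP.1 hq
  exact mem_CP.2 ⟨cq, N.sub m1, N.sub m2, fun h => N.U.vr _ cq.toPr.b h (N.sub m1)⟩

theorem hin {q : Sd I × Sd I} (hq : q ∈ S.CP pt A (S.Eqv (S.hi pt u))) :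
    S.pA pt q.1 q.2 ⊆ A := by
  have hB := N.base
  obtain ⟨cq, m1, m2, hv⟩ := mem_CP.1 hq
  have hp := cq.toPr
  have iq := hB.isIn_pA hp
  rcases N.hdich (N.mem_CP_X hq) with h | h
  · exfalso
    have n1 : q.1.1 ∉ S.pA pt q.1 q.2 := fun h1 => (disjoint_left.1 h) h1 m1
    have n2 : q.2.1 ∉ S.pA pt q.1 q.2 := fun h1 => (disjoint_left.1 h) h1 m2
    have hA : ¬ S.VirtA pt q.1 := fun hA => n1 ((hB.mem_pA_left hp).2 hA)
    have hVB : ¬ S.VirtB pt q.2 := fun hA => n2 ((hB.mem_pA_right hp).2 hA)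
    have k1 := (mem_bd.1 iq.mem_left).2.1
    rw [hi_of_not_A hA] at k1
    have k2 : unrot q.1 ∈ S.bd A := by
      refine mem_bd.2 ⟨hp.b.glued', m1, ?_⟩
      rw [← ccw_of_glued hp.b.glued']
      exact fun h1 => (disjoint_left.1 h) k1 h1
    have k3 := (mem_bd.1 iq.mem_right).2.1
    rw [lo_of_not_B hVB] at k3
    have k4 : q.2 ∈ S.bd A := mem_bd.2 ⟨hp.b'.glued, m2, fun h1 => (disjoint_left.1 h) k3 h1⟩
    rw [N.iA.bd, mem_insert, mem_singleton] at k2 k4
    rcases k4 with k4 | k4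
    · exact hv (by rw [← k4]; exact hp.eqv.symm)
    · rcases k2 with k2 | k2
      · -- both boundary edges have the same second end
        apply N.iA.reg2.not_both hB
        have e1 : S.Eqv q.1 (S.g (S.hi pt u)) := by
          rw [← k2, ← ccw_of_glued hp.b.glued']
          exact ccw_eqv hp.b.glued'
        rw [← k4]
        exact hp.eqv.symm.trans e1
      · apply hv
        have e1 : S.Eqv q.1 (S.ccw q.1) := ccw_eqv hp.b.glued'
        rw [ccw_of_glued hp.b.glued', k2, S.invol] at e1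
        exact N.he'.trans e1.symm
  · exact h.1

/-- the triangle of `u` in a set disjoint from `A` -/
theorem hzB_aux {q : Sd I × Sd I} (hq : q ∈ S.CP pt (S.pB pt a w') (S.Eqv a))
    (hd : Disjoint (S.pA pt q.1 q.2) A) (hm : u.1 ∈ S.pA pt q.1 q.2) {z : Sd I}
    (hz : S.NoB pt z) (huz : S.Eqv (unrot u) z) : S.BLg pt (S.pA pt q.1 q.2) q.1 z := by
  have hB := N.base
  obtain ⟨cq, m1, m2, hv⟩ := mem_CP.1 hq
  have hp := cq.toPr
  have iq := hB.isIn_pA hp
  have k1 : unrot u ∈ S.bd (S.pA pt q.1 q.2) := by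
    refine mem_bd.2 ⟨N.hu.glued', hm, ?_⟩
    rw [← ccw_of_glued N.hu.glued']
    exact fun h1 => (disjoint_left.1 hd) h1 N.ccw_mem
  rw [iq.bd, mem_insert, mem_singleton] at k1
  rcases k1 with k1 | k1
  · exfalso
    apply hz q.1 hp.b
    have := hp.b.eqv_hi
    rw [← k1] at this
    exact this.trans huz
  · have k2 : S.lo pt q.2 = S.ccw u := by
      rw [ccw_of_glued N.hu.glued', k1, S.invol]
    have e1 : S.Eqv q.1 u := by
      have h1 := hp.b'.eqv_lo
      rw [k2] at h1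
      exact (hp.eqv.trans h1).trans (ccw_eqv N.hu.glued').symm
    rcases hB.blade_in_pA cq N.hu e1 hm with h1 | h1
    · rw [← h1.1] at h1
      exact absurd h1.2 N.not_A
    · rw [← h1.1] at h1
      refine ⟨u, Or.inr h1.2, e1.symm, hm, ?_⟩
      rw [xc_of_not_A N.not_A]
      exact huz

theorem hzB {q : Sd I × Sd I} (hq : q ∈ S.CP pt (S.pB pt a w') (S.Eqv a))
    (hd : Disjoint (S.pA pt q.1 q.2) A) {z : Sd I} (hz : S.NoB pt z)
    (h1 : S.Meets (S.pA pt q.1 q.2) z) (h2 : S.Meets A z) :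
    S.BLg pt (S.pA pt q.1 q.2) q.1 z := by
  have hB := N.base
  obtain ⟨cq, m1, m2, hv⟩ := mem_CP.1 hq
  have hp := cq.toPr
  have iq := hB.isIn_pA hp
  obtain ⟨z1, e1, n1⟩ := h2
  obtain ⟨z2, e2, n2⟩ := h1
  have hne : ¬ S.Eqv (S.hi pt u) z1 := fun h =>
    hz u N.hu ((N.hu.eqv_hi.trans h).trans e1)
  have hz2 : z2.1 ∉ A := fun h => (disjoint_left.1 hd) n2 h
  have hsub := N.U.env.subA q hq
  rcases N.outA n1 (e1.trans e2.symm) hz2 hne with (h | h | h) | (⟨h0, h⟩ | ⟨h0, h | h⟩)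
  · exact absurd (by rw [h] at n2; exact n2) (N.U.b_not_mem hq)
  · exact absurd (hsub (by rw [h] at n2; exact n2)) N.U.a_not_mem
  · exact absurd (hsub (by rw [h] at n2; exact n2)) N.t_not_mem
  · rw [h] at n2 e2
    exact N.hzB_aux hq hd n2 hz e2
  · rw [h] at n2 e2
    exact N.hzB_aux hq hd n2 hz e2
  · by_cases hm : u.1 ∈ S.pA pt q.1 q.2
    · refine N.hzB_aux hq hd hm hz ?_
      have h3 := Eqv.of_glued' h0.glued_rot
      rw [rot_rot, ← h] at h3
      exact h3.trans e2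
    · exfalso
      rw [h] at n2 e2
      have k1 : S.g (rot u) ∈ S.bd (S.pA pt q.1 q.2) :=
        mem_bd.2 ⟨g_ne_iff.2 h0.glued_rot, n2, by rw [S.invol]; exact hm⟩
      rw [iq.bd, mem_insert, mem_singleton] at k1
      rcases k1 with k1 | k1
      · apply hz q.1 hp.b
        have := hp.b.eqv_hi
        rw [← k1] at this
        exact this.trans e2
      · have k2 : S.lo pt q.2 = rot u := by
          rw [← S.invol (rot u), k1, S.invol]
        have e3 : S.Eqv q.1 (rot (S.g (rot u))) := by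
          have h4 := hp.b'.eqv_lo
          rw [k2] at h4
          exact (hp.eqv.trans h4).trans (Eqv.of_glued h0.glued_rot)
        rcases hB.blade_in_pA cq (Or.inl h0.blade) e3 n2 with h5 | h5
        · rw [← h5.1] at h5
          exact h0.blade.not_A h5.2
        · rw [← h5.1] at h5
          exact h0.blade.not_B h5.2

theorem false : False := by
  refine N.U.env.no_extra N.U.vr N.iA N.sub ?_ (fun v hv h => N.hno hv h)
    (fun q hq => N.hdich hq) (fun q hq => N.hin hq) (fun z h1 h2 h3 => N.hzA h1 h2 h3)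
    (fun q hq h1 z h2 h3 h4 => N.hzB hq h1 h2 h3 h4) (fun e h1 _ h3 z h4 => N.hear h1 h3 h4)
  exact fun h => N.U.w_ne_v (h.trans N.he').symm

end N8

theorem U8.false {S : Obj I} {pt : Sd I → Pt} {R : Set Pt} {a w' : Sd I}
    (U : S.U8 pt R a w') : False := by
  obtain ⟨u, hu, he, hmax⟩ := U.exists_nearest
  obtain ⟨A, iA, hs, hn⟩ := U.exists_A1 hu he
  exact N8.false ⟨U, hu, he, hmax, iA, hs, hn⟩

end Obj

end AG
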