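import Pool.Agent.AG.S8.S84
import Pool.Agent.AG.Reg.Results
import Pool.Agent.AG.Mir.Ord

/-!
# Project AG, section 8: the result for section 7   (helper86)
-/

set_option linter.unusedSectionVars false

namespace AG

open Finset

variable {I : Type} [DecidableEq I]

namespace Obj

variable {S : Obj I} {pt : Sd I → Pt} {R : Set Pt} {w0 w0' : Sd I}

/-- case (Ub) at the left stub: the three angles at `x` have sum at least `π` -/
theorem ub_left (hO : S.OpenMin pt R w0 w0') (hA : S.VirtA pt w0) (hU : S.IsU pt w0)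
    (hf : S.Face (S.g w0).1) :
    Real.pi ≤ cang pt (rot (S.g (rot w0))) + cang pt (rot w0) + cang pt (S.g w0) := by
  by_contra h
  exact U8.false ⟨hO, hA, hU, hf, not_le.1 h, hO.env hO.cex.base,
    fun u hu he => hO.no_blade hO.cex.base hu he⟩

/-- case (Ub) at the right stub -/
theorem ub_right (hO : S.OpenMin pt R w0 w0') (hVB : S.VirtB pt w0') (hU : S.IsU pt (unrot w0'))
    (hf : S.Face (S.g (unrot w0')).1) :
    Real.pi ≤ cang pt (S.g (rot w0')) + cang pt (unrot w0') +
      cang pt (rot (S.g (unrot w0'))) := by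
  have hM : S.mir.OpenMin (ptm pt) (refl '' R) (mc w0') (mc w0) := by
    refine openMin_mir (fun S pt h => h.base.lin) (fun S pt h => h.base.lin)
      (fun S pt w h h' => h'.1.not_B h'.2) (fun S pt w h h' => h'.1.not_B h'.2) hO
  have h1 : S.mir.g (mc w0') = ms (S.g (unrot w0')) := S.mir_g_mc w0'
  have h2 : S.mir.g (rot (mc w0')) = ms (S.g (rot w0')) := by rw [rot_mc, mir_g_ms]
  have key := ub_left hM ((virtA_mir S pt).2 hVB)
    (by rw [mc_eq_ms]; exact (isU_mir S pt).2 hU)
    (by rw [h1, ms_fst]; exact (face_mir S).2 hf)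
  rw [h1, h2, rot_ms, rot_mc, cang_mir] at key
  have h3 : cang (ptm pt) (ms (rot w0')) = cang pt (unrot w0') :=
    (cang_mir pt (rot (rot w0'))).trans (by rw [rot_rot])
  have h4 : cang (ptm pt) (ms (S.g (unrot w0'))) = cang pt (rot (S.g (unrot w0'))) :=
    cang_mir pt (rot (S.g (unrot w0')))
  rw [h3, h4] at key
  exact key

end Obj

end AG
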